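import Pool.Agent.Helper7.GJ.GB2

/-! Module BLB: the Brascamp-Lieb inequality for `exp (-Ph - ∑ σ_i (V x)_i ^ 2)`. -/

open Finset MeasureTheory Filter Topology Matrix
open scoped ENNReal ContDiff

namespace Pool.Agent.Helper44.GJ

section

variable {n m : ℕ}

theorem blb_exp (p ε : ℝ) (V : Matrix (Fin n) (Fin m) ℝ) (σ : Fin n → ℝ) (x : Fin m → ℝ) :
    Real.exp (-∑ i, (|V.mulVec x i| ^ p + (ε + σ i) * V.mulVec x i ^ 2))
      = Real.exp (-(ε * ∑ i, V.mulVec x i ^ 2)) * es p V σ x := by
  unfold es ee Ph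
  rw [← Real.exp_add, ← Real.exp_add]
  congr 1
  rw [Finset.sum_add_distrib, Finset.mul_sum]
  have : ∑ i, (ε + σ i) * V.mulVec x i ^ 2
      = ∑ i, ε * V.mulVec x i ^ 2 + ∑ i, σ i * V.mulVec x i ^ 2 := by
    rw [← Finset.sum_add_distrib]
    exact Finset.sum_congr rfl fun i _ => by ring
  rw [this]
  ring

theorem blb_es_pos (p : ℝ) (V : Matrix (Fin n) (Fin m) ℝ) (σ : Fin n → ℝ) (x : Fin m → ℝ) :
    0 < es p V σ x := mul_pos (Real.exp_pos _) (Real.exp_pos _)

theorem blb_es_cont (p : ℝ) (V : Matrix (Fin n) (Fin m) ℝ) (σ : Fin n → ℝ)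
    (hec : Continuous (ee p V)) : Continuous (es p V σ) := by
  unfold es
  refine Continuous.mul ?_ hec
  fun_prop

/-- Bounded continuous functions are integrable. -/
theorem blb_int (hIN0 : ST_IN0) {p : ℝ} (hp : 1 ≤ p) (V : Matrix (Fin n) (Fin m) ℝ)
    (hV : Function.Injective V.mulVec) (σ : Fin n → ℝ) (hσ : ∀ i, 0 ≤ σ i)
    (F : (Fin m → ℝ) → ℝ) (hF : Continuous F) (C : ℝ) (hC : ∀ x, |F x| ≤ C) :
    Integrable (fun x => F x * es p V σ x) := by
  obtain ⟨-, hec, hint⟩ := hIN0 n m p V hp hV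
  have h1 : Integrable (fun x : Fin m → ℝ =>
      (F x * Real.exp (-∑ i, σ i * V.mulVec x i ^ 2)) * ee p V x) := by
    refine hint _ C 0 ?_ fun x => ?_
    · refine Continuous.aestronglyMeasurable ?_
      refine hF.mul ?_
      fun_prop
    · rw [pow_zero, mul_one, abs_mul, Real.abs_exp]
      have h2 : Real.exp (-∑ i, σ i * V.mulVec x i ^ 2) ≤ 1 := by
        rw [Real.exp_le_one_iff, neg_nonpos]
        exact Finset.sum_nonneg fun i _ => mul_nonneg (hσ i) (sq_nonneg _)
      calc |F x| * Real.exp (-∑ i, σ i * V.mulVec x i ^ 2) ≤ |F x| * 1 :=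
            mul_le_mul_of_nonneg_left h2 (abs_nonneg _)
        _ ≤ C := by rw [mul_one]; exact hC x
  refine h1.congr (Filter.Eventually.of_forall fun x => ?_)
  simp only [es]
  ring

/-- The limit `ε → 0`. -/
theorem blb_lim (hIN0 : ST_IN0) {p : ℝ} (hp : 1 ≤ p) (V : Matrix (Fin n) (Fin m) ℝ)
    (hV : Function.Injective V.mulVec) (σ : Fin n → ℝ) (hσ : ∀ i, 0 ≤ σ i)
    (F : (Fin m → ℝ) → ℝ) (hF : Continuous F) (C : ℝ) (hC : ∀ x, |F x| ≤ C) :
    Tendsto (fun k : ℕ => ∫ x : Fin m → ℝ,
      F x * (Real.exp (-(1 / ((k : ℝ) + 1) * ∑ i, V.mulVec x i ^ 2)) * es p V σ x)) atTop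
      (𝓝 (∫ x : Fin m → ℝ, F x * es p V σ x)) := by
  obtain ⟨-, hec, hint⟩ := hIN0 n m p V hp hV
  have hI := blb_int hIN0 hp V hV σ hσ F hF C hC
  refine tendsto_integral_of_dominated_convergence (fun x => |F x * es p V σ x|) ?_ hI.abs ?_ ?_
  · intro k
    refine Continuous.aestronglyMeasurable ?_
    refine hF.mul (Continuous.mul ?_ (blb_es_cont p V σ hec))
    fun_prop
  · intro k
    refine Filter.Eventually.of_forall fun x => ?_
    rw [Real.norm_eq_abs, abs_mul, abs_mul, abs_mul, Real.abs_exp]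
    have h2 : Real.exp (-(1 / ((k : ℝ) + 1) * ∑ i, V.mulVec x i ^ 2)) ≤ 1 := by
      rw [Real.exp_le_one_iff, neg_nonpos]
      exact mul_nonneg (by positivity) (Finset.sum_nonneg fun i _ => sq_nonneg _)
    have h3 := abs_nonneg (es p V σ x)
    refine mul_le_mul_of_nonneg_left ?_ (abs_nonneg _)
    nlinarith
  · refine Filter.Eventually.of_forall fun x => ?_
    have h1 : Tendsto (fun k : ℕ => 1 / ((k : ℝ) + 1)) atTop (𝓝 0) :=
      tendsto_one_div_add_atTop_nhds_zero_nat
    have h2 : Tendsto (fun k : ℕ => Real.exp (-(1 / ((k : ℝ) + 1) * ∑ i, V.mulVec x i ^ 2)))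
        atTop (𝓝 (Real.exp (-(0 * ∑ i, V.mulVec x i ^ 2)))) :=
      (Real.continuous_exp.tendsto _).comp ((h1.mul_const _).neg)
    rw [zero_mul, neg_zero, Real.exp_zero] at h2
    have h3 := (h2.mul_const (es p V σ x)).const_mul (F x)
    rwa [one_mul] at h3

end

theorem st_BLB (hBLA : ST_BLA) (hGD : ST_GD) (hGCX : ST_GCX) (hIN0 : ST_IN0) (hIN1 : ST_IN1) :
    ST_BLB := by
  intro n m p V hp hp3 hV σ hσ f w hfc hfs hwc hws hd
  obtain ⟨-, -, -, hg2c, hg2n, -, -, -, -, hg20⟩ := hGD p hp hp3.le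
  obtain ⟨-, hec, -⟩ := hIN0 n m p V (by linarith) hV
  have hp0 : 0 < p := by linarith
  have hpp : 0 < p * (p - 1) := mul_pos hp0 (by linarith)
  -- bounds
  obtain ⟨C0, hC0⟩ := hfs.exists_bound_of_continuous hfc
  -- replaced functions
  classical
  set w' : Fin n → (Fin m → ℝ) → ℝ := fun i x => if V i = 0 then 0 else w i x with hw'
  have hw'c : ∀ i, Continuous (w' i) := by
    intro i
    by_cases h : V i = 0
    · simp only [hw', h, if_true]; exact continuous_const
    · simp only [hw', h, if_false]; exact hwc i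
  have hw's : ∀ i, HasCompactSupport (w' i) := by
    intro i
    by_cases h : V i = 0
    · simp only [hw', h, if_true]; exact HasCompactSupport.zero
    · simp only [hw', h, if_false]; exact hws i
  have hd' : ∀ x h, HasDerivAt (fun r : ℝ => f (x + r • h)) (∑ i, w' i x * V.mulVec h i) 0 := by
    intro x h
    refine (hd x h).congr_deriv (Finset.sum_congr rfl fun i _ => ?_)
    by_cases hi : V i = 0
    · have h0 : V.mulVec h i = 0 := by
        show V i ⬝ᵥ h = 0
        rw [hi, zero_dotProduct]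
      rw [h0, mul_zero, mul_zero]
    · simp only [hw', hi, if_false]
  -- the right side
  set R : (Fin m → ℝ) → ℝ := fun x => (∑ i, w i x ^ 2 / g2 p (V.mulVec x i)) * es p V σ x with hR
  have hRint : Integrable R := by
    have h1 : ∀ i, Integrable (fun x : Fin m → ℝ =>
        w i x ^ 2 / g2 p (V.mulVec x i) * es p V σ x) := by
      intro i
      by_cases hi : V i = 0
      · have h0 : ∀ x : Fin m → ℝ, V.mulVec x i = 0 := fun x => by
          show V i ⬝ᵥ x = 0
          rw [hi, zero_dotProduct]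
        have h2 : (fun x : Fin m → ℝ => w i x ^ 2 / g2 p (V.mulVec x i) * es p V σ x)
            = fun _ => 0 := by
          funext x
          rw [h0, hg20, div_zero, zero_mul]
        rw [h2]
        exact integrable_zero _ _ _
      · obtain ⟨C1, hC1⟩ := (hws i).exists_bound_of_continuous (hwc i)
        have h3 : Integrable (fun x : Fin m → ℝ => |V.mulVec x i| ^ (-(p - 2))
            * |V.mulVec x i| ^ (-(0 : ℝ)) * (w i x ^ 2 * Real.exp (-∑ i, σ i * V.mulVec x i ^ 2))
            * ee p V x) := by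
          refine hIN1 n m p V hp hp3.le hV i i hi hi (p - 2) 0 (by linarith) le_rfl
            (by linarith) _ (C1 ^ 2) 0 ?_ fun x => ?_
          · refine Continuous.aestronglyMeasurable ?_
            refine ((hwc i).pow 2).mul ?_
            fun_prop
          · rw [pow_zero, mul_one, abs_mul, Real.abs_exp, abs_pow]
            have h4 : Real.exp (-∑ i, σ i * V.mulVec x i ^ 2) ≤ 1 := by
              rw [Real.exp_le_one_iff, neg_nonpos]
              exact Finset.sum_nonneg fun i _ => mul_nonneg (hσ i) (sq_nonneg _)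
            have h5 : |w i x| ^ 2 ≤ C1 ^ 2 :=
              pow_le_pow_left₀ (abs_nonneg _) (hC1 x) 2
            have h6 := Real.exp_pos (-∑ i, σ i * V.mulVec x i ^ 2)
            have h7 : 0 ≤ |w i x| ^ 2 := by positivity
            nlinarith
        refine (h3.const_mul (p * (p - 1))⁻¹).congr ?_
        filter_upwards [GB2.row_ne V i hi] with x hx
        have hx' : 0 < |V.mulVec x i| := abs_pos.2 hx
        simp only [g2, es, neg_zero, Real.rpow_zero, mul_one]
        have hq : 0 < |V.mulVec x i| ^ (p - 2) := Real.rpow_pos_of_pos hx' _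
        rw [Real.rpow_neg hx'.le]
        generalize |V.mulVec x i| ^ (p - 2) = Q at hq ⊢
        generalize p * (p - 1) = P at hpp ⊢
        field_simp
    have h2 := integrable_finsetSum (Finset.univ : Finset (Fin n)) (fun i _ => h1 i)
    refine h2.congr (Filter.Eventually.of_forall fun x => ?_)
    simp only [hR, Finset.sum_mul]
  have hR0 : ∀ x, 0 ≤ R x := fun x => by
    simp only [hR]
    exact mul_nonneg (Finset.sum_nonneg fun i _ => div_nonneg (sq_nonneg _) (hg2n _))
      (blb_es_pos p V σ x).le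
  -- the inequality for ε
  have hmain : ∀ ε : ℝ, 0 < ε →
      (∫ x : Fin m → ℝ, (1 : ℝ) * (Real.exp (-(ε * ∑ i, V.mulVec x i ^ 2)) * es p V σ x))
        * (∫ x : Fin m → ℝ, f x ^ 2 * (Real.exp (-(ε * ∑ i, V.mulVec x i ^ 2)) * es p V σ x))
      - (∫ x : Fin m → ℝ, f x * (Real.exp (-(ε * ∑ i, V.mulVec x i ^ 2)) * es p V σ x)) ^ 2
      ≤ (∫ x : Fin m → ℝ, (1 : ℝ) * (Real.exp (-(ε * ∑ i, V.mulVec x i ^ 2)) * es p V σ x))
        * ∫ x, R x := by
    intro ε hε
    have hB := hBLA n m V (fun i t => |t| ^ p + (ε + σ i) * t ^ 2)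
      (fun i t => g2 p t + 2 * ε + 2 * σ i) (2 * ε) 6 (p - 2) f w' hV (by linarith) (by norm_num)
      (by linarith) ?_ ?_ ?_ ?_ ?_ ?_ hfc hfs hw'c hw's hd'
    · simp only [blb_exp] at hB
      simp only [one_mul]
      refine hB.trans (mul_le_mul_of_nonneg_left ?_ (integral_nonneg fun x =>
        mul_nonneg (Real.exp_pos _).le (blb_es_pos p V σ x).le))
      refine integral_mono_of_nonneg (Filter.Eventually.of_forall fun x => ?_) hRint ?_
      · refine mul_nonneg (Finset.sum_nonneg fun i _ => div_nonneg (sq_nonneg _) ?_)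
          (mul_nonneg (Real.exp_pos _).le (blb_es_pos p V σ x).le)
        have := hg2n (V.mulVec x i)
        have := hσ i
        linarith
      · have hae : ∀ i, ∀ᵐ x : Fin m → ℝ, V i ≠ 0 → V.mulVec x i ≠ 0 := by
          intro i
          by_cases hi : V i = 0
          · exact Filter.Eventually.of_forall fun x h => absurd hi h
          · filter_upwards [GB2.row_ne V i hi] with x hx _
            exact hx
        filter_upwards [ae_all_iff.2 hae] with x hx
        simp only [hR]
        have e1 : Real.exp (-(ε * ∑ i, V.mulVec x i ^ 2)) ≤ 1 := by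
          rw [Real.exp_le_one_iff, neg_nonpos]
          exact mul_nonneg hε.le (Finset.sum_nonneg fun i _ => sq_nonneg _)
        have e2 : Real.exp (-(ε * ∑ i, V.mulVec x i ^ 2)) * es p V σ x ≤ es p V σ x := by
          have := blb_es_pos p V σ x
          nlinarith
        have e3 : ∑ i, w' i x ^ 2 / (g2 p (V.mulVec x i) + 2 * ε + 2 * σ i)
            ≤ ∑ i, w i x ^ 2 / g2 p (V.mulVec x i) := by
          refine Finset.sum_le_sum fun i _ => ?_
          by_cases hi : V i = 0
          · simp only [hw', hi, if_true]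
            rw [zero_pow two_ne_zero, zero_div]
            exact div_nonneg (sq_nonneg _) (hg2n _)
          · simp only [hw', hi, if_false]
            have hg : 0 < g2 p (V.mulVec x i) := by
              unfold g2
              exact mul_pos hpp (Real.rpow_pos_of_pos (abs_pos.2 (hx i hi)) _)
            refine div_le_div_of_nonneg_left (sq_nonneg _) hg ?_
            have := hσ i
            linarith
        have e4 : 0 ≤ ∑ i, w i x ^ 2 / g2 p (V.mulVec x i) :=
          Finset.sum_nonneg fun i _ => div_nonneg (sq_nonneg _) (hg2n _)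
        exact mul_le_mul e3 e2 (mul_nonneg (Real.exp_pos _).le (blb_es_pos p V σ x).le) e4
    · intro i
      refine Continuous.add ?_ (by fun_prop)
      exact continuous_abs.rpow_const fun x => Or.inr hp0.le
    · intro i
      exact (hg2c.add continuous_const).add continuous_const
    · intro i t
      have := hg2n t
      have := hσ i
      show 2 * ε ≤ g2 p t + 2 * ε + 2 * σ i
      linarith
    · intro i t
      have h1 : 0 ≤ |t| ^ p := Real.rpow_nonneg (abs_nonneg _) _
      have h2 := mul_nonneg (hσ i) (sq_nonneg t)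
      have h3 := mul_nonneg hε.le (sq_nonneg t)
      show 2 * ε / 4 * t ^ 2 ≤ |t| ^ p + (ε + σ i) * t ^ 2
      nlinarith
    · intro i t k
      have h1 := (hGCX p hp hp3.le t k).1
      have h2 := mul_nonneg (hσ i) (sq_nonneg k)
      show 2 * ε * k ^ 2 ≤ (|t + k| ^ p + (ε + σ i) * (t + k) ^ 2)
        + (|t - k| ^ p + (ε + σ i) * (t - k) ^ 2) - 2 * (|t| ^ p + (ε + σ i) * t ^ 2)
      nlinarith
    · intro i t k
      have h1 := (hGCX p hp hp3.le t k).2
      show (g2 p t + 2 * ε + 2 * σ i) * k ^ 2 - 6 * |k| ^ (2 + (p - 2))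
        ≤ (|t + k| ^ p + (ε + σ i) * (t + k) ^ 2)
        + (|t - k| ^ p + (ε + σ i) * (t - k) ^ 2) - 2 * (|t| ^ p + (ε + σ i) * t ^ 2)
      rw [show 2 + (p - 2) = p by ring]
      nlinarith
  -- the limit
  have L1 := blb_lim hIN0 (by linarith : 1 ≤ p) V hV σ hσ (fun _ => 1) continuous_const 1
    (fun x => by simp)
  have L2 := blb_lim hIN0 (by linarith : 1 ≤ p) V hV σ hσ (fun x => f x ^ 2) (hfc.pow 2) (C0 ^ 2)
    (fun x => by
      rw [abs_pow]
      exact pow_le_pow_left₀ (abs_nonneg _) (hC0 x) 2)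
  have L3 := blb_lim hIN0 (by linarith : 1 ≤ p) V hV σ hσ f hfc C0 (fun x => hC0 x)
  have hlim := le_of_tendsto_of_tendsto' ((L1.mul L2).sub (L3.pow 2)) (L1.mul_const (∫ x, R x))
    (fun k => hmain (1 / ((k : ℝ) + 1)) (by positivity))
  simpa only [one_mul] using hlim

end Pool.Agent.Helper44.GJ
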