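import Pool.Agent.Helper44.GJ.Stmts

/-! Module GCX: second differences of `|t| ^ p`. -/

open Finset MeasureTheory Filter Topology Matrix
open scoped ENNReal ContDiff

namespace Pool.Agent.Helper44.GJ

theorem gcx_sub {q : ℝ} (hq0 : 0 < q) (hq1 : q ≤ 1) (a b : ℝ) :
    |a + b| ^ q ≤ |a| ^ q + |b| ^ q := by
  calc |a + b| ^ q ≤ (|a| + |b|) ^ q :=
        Real.rpow_le_rpow (abs_nonneg _) (abs_add_le a b) hq0.le
    _ ≤ |a| ^ q + |b| ^ q :=
        Real.rpow_add_le_add_rpow (abs_nonneg _) (abs_nonneg _) hq0.le hq1

theorem st_GCX (hGD : ST_GD) : ST_GCX := by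
  intro p hp hp3 t k
  obtain ⟨hd1, hd2, hc1, hc2, hg2, hodd, -, -, h0, h20⟩ := hGD p hp hp3
  have hp0 : 0 < p := by linarith
  have hconv : ConvexOn ℝ Set.univ (fun t : ℝ => |t| ^ p) := by
    have h1 : ConvexOn ℝ (Set.Ici (0 : ℝ)) (fun x : ℝ => x ^ p) := convexOn_rpow (by linarith)
    refine ⟨convex_univ, fun x _ y _ a b ha hb hab => ?_⟩
    have h2 := h1.2 (abs_nonneg x : |x| ∈ Set.Ici (0 : ℝ)) (abs_nonneg y : |y| ∈ Set.Ici (0 : ℝ))
      ha hb hab
    simp only [smul_eq_mul] at h2 ⊢
    refine le_trans (Real.rpow_le_rpow (abs_nonneg _) ?_ hp0.le) h2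
    calc |a * x + b * y| ≤ |a * x| + |b * y| := abs_add_le _ _
      _ = a * |x| + b * |y| := by rw [abs_mul, abs_mul, abs_of_nonneg ha, abs_of_nonneg hb]
  constructor
  · have h := hconv.2 (Set.mem_univ (t + k)) (Set.mem_univ (t - k))
      (by norm_num : (0 : ℝ) ≤ 1 / 2) (by norm_num : (0 : ℝ) ≤ 1 / 2) (by norm_num)
    simp only [smul_eq_mul] at h
    rw [show 1 / 2 * (t + k) + 1 / 2 * (t - k) = t by ring] at h
    linarith
  · -- reduce to k ≥ 0
    have key : ∀ k : ℝ, 0 ≤ k →
        g2 p t * k ^ 2 - 6 * |k| ^ p ≤ |t + k| ^ p + |t - k| ^ p - 2 * |t| ^ p := by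
      intro k hk
      set C : ℝ := p * (p - 1) with hC
      have hCpos : 0 < C := mul_pos hp0 (by linarith)
      have hC6 : C ≤ 6 := by
        have : (3 - p) * (p + 2) ≥ 0 := mul_nonneg (by linarith) (by linarith)
        nlinarith
      -- second derivative
      let u : ℝ → ℝ := fun s => |t + s| ^ p + |t - s| ^ p - 2 * |t| ^ p - g2 p t * s ^ 2
        + 2 * |s| ^ p
      let u1 : ℝ → ℝ := fun s => g1 p (t + s) - g1 p (t - s) - g2 p t * (2 * s) + 2 * g1 p s
      let u2 : ℝ → ℝ := fun s => g2 p (t + s) + g2 p (t - s) - g2 p t * 2 + 2 * g2 p s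
      have hu : ∀ s, HasDerivAt u (u1 s) s := by
        intro s
        have a1 : HasDerivAt (fun s : ℝ => |t + s| ^ p) (g1 p (t + s)) s := by
          exact (hd1 (t + s)).comp_const_add t s
        have a2 : HasDerivAt (fun s : ℝ => |t - s| ^ p) (-g1 p (t - s)) s := by
          exact (hd1 (t - s)).comp_const_sub t s
        have a3 : HasDerivAt (fun s : ℝ => g2 p t * s ^ 2) (g2 p t * (2 * s)) s := by
          have := (hasDerivAt_pow 2 s).const_mul (g2 p t)
          simpa using this
        have a4 := (hd1 s).const_mul 2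
        have := (((a1.add a2).sub_const (2 * |t| ^ p)).sub a3).add a4
        refine this.congr_deriv ?_
        simp only [u1]
        ring
      have hu1 : ∀ s, HasDerivAt u1 (u2 s) s := by
        intro s
        have a1 : HasDerivAt (fun s : ℝ => g1 p (t + s)) (g2 p (t + s)) s := by
          exact (hd2 (t + s)).comp_const_add t s
        have a2 : HasDerivAt (fun s : ℝ => g1 p (t - s)) (-g2 p (t - s)) s := by
          exact (hd2 (t - s)).comp_const_sub t s
        have a3 : HasDerivAt (fun s : ℝ => g2 p t * (2 * s)) (g2 p t * 2) s := by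
          have := ((hasDerivAt_id s).const_mul 2).const_mul (g2 p t)
          simpa using this
        have a4 := (hd2 s).const_mul 2
        have := ((a1.sub a2).sub a3).add a4
        refine this.congr_deriv ?_
        simp only [u2]
        ring
      have hu2 : ∀ s, 0 ≤ u2 s := by
        intro s
        have b1 : |t| ^ (p - 2) ≤ |t + s| ^ (p - 2) + |s| ^ (p - 2) := by
          have := gcx_sub (by linarith : 0 < p - 2) (by linarith) (t + s) (-s)
          rwa [abs_neg, show t + s + -s = t by ring] at this
        have b2 : |t| ^ (p - 2) ≤ |t - s| ^ (p - 2) + |s| ^ (p - 2) := by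
          have := gcx_sub (by linarith : 0 < p - 2) (by linarith) (t - s) s
          rwa [show t - s + s = t by ring] at this
        simp only [u2, g2]
        nlinarith
      have hmono1 : MonotoneOn u1 (Set.Ici 0) := by
        refine monotoneOn_of_deriv_nonneg (convex_Ici 0) ?_ ?_ ?_
        · exact fun s _ => (hu1 s).continuousAt.continuousWithinAt
        · exact fun s _ => (hu1 s).differentiableAt.differentiableWithinAt
        · intro s _
          rw [(hu1 s).deriv]
          exact hu2 s
      have hu10 : u1 0 = 0 := by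
        simp only [u1]
        rw [h0]
        simp
      have hmono : MonotoneOn u (Set.Ici 0) := by
        refine monotoneOn_of_deriv_nonneg (convex_Ici 0) ?_ ?_ ?_
        · exact fun s _ => (hu s).continuousAt.continuousWithinAt
        · exact fun s _ => (hu s).differentiableAt.differentiableWithinAt
        · intro s hs
          rw [(hu s).deriv, ← hu10]
          rw [interior_Ici] at hs
          exact hmono1 (Set.mem_Ici.2 le_rfl) (Set.mem_Ici.2 (le_of_lt hs)) (le_of_lt hs)
      have hu0 : u 0 = 0 := by
        simp only [u]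
        rw [abs_zero, Real.zero_rpow hp0.ne']
        simp
        ring
      have hfin := hmono (Set.mem_Ici.2 le_rfl) (Set.mem_Ici.2 hk) hk
      rw [hu0] at hfin
      simp only [u] at hfin
      have hkp : 0 ≤ |k| ^ p := Real.rpow_nonneg (abs_nonneg _) _
      linarith
    rcases le_total 0 k with hk | hk
    · exact key k hk
    · have := key (-k) (by linarith)
      rw [abs_neg, neg_sq, show t + -k = t - k by ring, show t - -k = t + k by ring] at this
      linarith

end Pool.Agent.Helper44.GJ
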