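import Pool.Agent.Helper7.GJ.GB2

/-! Module IN1: integrability of singular functions. -/

open Finset MeasureTheory Filter Topology Matrix
open scoped ENNReal ContDiff

namespace Pool.Agent.Helper44.GJ

theorem in1_half {f : ℝ → ℝ} {M s : ℝ} (hf : LC f M) (hs0 : 0 ≤ s) (hs1 : s < 1) :
    IntegrableOn (fun t : ℝ => t ^ (-s) * f t) (Set.Ioi 0) := by
  obtain ⟨C, hC⟩ := hf.bd
  have h1 : IntegrableOn (fun t : ℝ => t ^ (-s)) (Set.Ioc 0 1) := by
    have := intervalIntegral.intervalIntegrable_rpow' (a := 0) (b := 1) (r := -s) (by linarith)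
    rwa [intervalIntegrable_iff_integrableOn_Ioc_of_le zero_le_one] at this
  have hm : Measurable (fun t : ℝ => t ^ (-s) * f t) :=
    (measurable_id.pow_const (-s)).mul hf.ms
  rw [← Set.Ioc_union_Ioi_eq_Ioi (zero_le_one : (0 : ℝ) ≤ 1)]
  refine IntegrableOn.union ?_ ?_
  · refine Integrable.mono' (h1.const_mul C) hm.aestronglyMeasurable ?_
    filter_upwards [ae_restrict_mem measurableSet_Ioc] with t ht
    have h2 : 0 ≤ t ^ (-s) := Real.rpow_nonneg ht.1.le _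
    rw [Real.norm_eq_abs, abs_mul, abs_of_nonneg h2, abs_of_pos (hf.ps t ht.1), mul_comm]
    exact mul_le_mul_of_nonneg_right (hC t ht.1) h2
  · refine Integrable.mono' (hf.it.mono_set (Set.Ioi_subset_Ioi zero_le_one))
      hm.aestronglyMeasurable ?_
    filter_upwards [ae_restrict_mem measurableSet_Ioi] with t ht
    have ht1 : (1 : ℝ) ≤ t := le_of_lt ht
    have ht0 : (0 : ℝ) < t := lt_of_lt_of_le one_pos ht1
    have h2 : 0 ≤ t ^ (-s) := Real.rpow_nonneg ht0.le _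
    have h3 : t ^ (-s) ≤ 1 := Real.rpow_le_one_of_one_le_of_nonpos ht1 (by linarith)
    rw [Real.norm_eq_abs, abs_mul, abs_of_nonneg h2, abs_of_pos (hf.ps t ht0)]
    have := hf.ps t ht0
    nlinarith

theorem in1_one (hMAR : ST_MAR) {n m : ℕ} {p : ℝ} {V : Matrix (Fin n) (Fin m) ℝ}
    (hp : 2 < p) (hp3 : p ≤ 3) (hV : Function.Injective V.mulVec) {i : Fin n} (hi : V i ≠ 0)
    (hec : Continuous (ee p V)) {s : ℝ} (hs0 : 0 ≤ s) (hs1 : s < 1) :
    Integrable (fun x : Fin m → ℝ => |V.mulVec x i| ^ (-s) * ee p V x) := by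
  obtain ⟨f, hf, hφ⟩ := hMAR n m p V hp hp3 hV i hi
  have hee : ∀ x : Fin m → ℝ, 0 ≤ ee p V x := fun x => (Real.exp_pos _).le
  have hVm : Continuous fun x : Fin m → ℝ => V.mulVec x i := by fun_prop
  have hm : Measurable fun x : Fin m → ℝ => |V.mulVec x i| ^ (-s) :=
    (hVm.abs.measurable).pow_const (-s)
  refine ⟨(hm.mul hec.measurable).aestronglyMeasurable, ?_⟩
  rw [hasFiniteIntegral_iff_ofReal (Filter.Eventually.of_forall fun x =>
    mul_nonneg (Real.rpow_nonneg (abs_nonneg _) _) (hee x))]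
  have h1 := hφ (fun t => ENNReal.ofReal (t ^ (-s)))
    (ENNReal.measurable_ofReal.comp (measurable_id.pow_const (-s)))
  have h2 : ∫⁻ x : Fin m → ℝ, ENNReal.ofReal (|V.mulVec x i| ^ (-s) * ee p V x)
      = ∫⁻ x : Fin m → ℝ, ENNReal.ofReal (|V.mulVec x i| ^ (-s)) * ENNReal.ofReal (ee p V x) := by
    refine lintegral_congr fun x => ?_
    rw [ENNReal.ofReal_mul (Real.rpow_nonneg (abs_nonneg _) _)]
  rw [h2, h1]
  have h3 : ∫⁻ t in Set.Ioi (0 : ℝ), ENNReal.ofReal (t ^ (-s)) * ENNReal.ofReal (f t)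
      = ∫⁻ t in Set.Ioi (0 : ℝ), ENNReal.ofReal (t ^ (-s) * f t) := by
    refine setLIntegral_congr_fun measurableSet_Ioi fun t ht => ?_
    have ht' : (0 : ℝ) < t := ht
    simp only [ENNReal.ofReal_mul (Real.rpow_nonneg ht'.le (-s))]
  rw [h3]
  have h4 := (in1_half hf hs0 hs1).2
  rw [hasFiniteIntegral_iff_ofReal] at h4
  · exact h4
  · filter_upwards [ae_restrict_mem measurableSet_Ioi] with t ht
    have ht' : (0 : ℝ) < t := ht
    exact mul_nonneg (Real.rpow_nonneg ht'.le _) (hf.ps t ht').le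

theorem in1_pt {a b s' : ℝ} (ha : 0 ≤ a) (hb : 0 ≤ b) (hs' : a + b < s') (k N : ℕ)
    (hN : (a + b) / (s' - (a + b)) ≤ N) {A B P : ℝ} (hA : 0 < A) (hB : 0 < B) (hP : 1 ≤ P) :
    A ^ a * B ^ b * P ^ k ≤ A ^ s' + B ^ s' + P ^ (k * (N + 1)) := by
  set M : ℝ := max A B with hM
  have hM0 : 0 < M := lt_max_of_lt_left hA
  have hAM : A ≤ M := le_max_left _ _
  have hBM : B ≤ M := le_max_right _ _
  have h1 : A ^ a * B ^ b ≤ M ^ (a + b) := by
    rw [Real.rpow_add hM0]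
    exact mul_le_mul (Real.rpow_le_rpow hA.le hAM ha) (Real.rpow_le_rpow hB.le hBM hb)
      (Real.rpow_nonneg hB.le _) (Real.rpow_nonneg hM0.le _)
  have hPk : 1 ≤ P ^ k := one_le_pow₀ hP
  have hA' : 0 ≤ A ^ s' := Real.rpow_nonneg hA.le _
  have hB' : 0 ≤ B ^ s' := Real.rpow_nonneg hB.le _
  have hPK : 0 ≤ P ^ (k * (N + 1)) := by positivity
  have hMs : M ^ s' ≤ A ^ s' + B ^ s' := by
    rcases max_choice A B with h | h
    · rw [hM, h]; linarith
    · rw [hM, h]; linarith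
  have h2 : A ^ a * B ^ b * P ^ k ≤ M ^ (a + b) * P ^ k :=
    mul_le_mul_of_nonneg_right h1 (by linarith)
  rcases le_or_gt (P ^ k) (M ^ (s' - (a + b))) with h | h
  · have h3 : M ^ (a + b) * P ^ k ≤ M ^ (a + b) * M ^ (s' - (a + b)) :=
      mul_le_mul_of_nonneg_left h (Real.rpow_nonneg hM0.le _)
    rw [← Real.rpow_add hM0, show a + b + (s' - (a + b)) = s' by ring] at h3
    linarith
  · have hr : 0 ≤ (a + b) / (s' - (a + b)) := div_nonneg (by linarith) (by linarith)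
    have h3 : M ^ (a + b) ≤ (P ^ k) ^ N := by
      have h4 : M ^ (a + b) = (M ^ (s' - (a + b))) ^ ((a + b) / (s' - (a + b))) := by
        rw [← Real.rpow_mul hM0.le]
        congr 1
        rw [mul_div_cancel₀]
        exact (by linarith : 0 < s' - (a + b)).ne'
      rw [h4]
      calc (M ^ (s' - (a + b))) ^ ((a + b) / (s' - (a + b)))
          ≤ (P ^ k) ^ ((a + b) / (s' - (a + b))) :=
            Real.rpow_le_rpow (Real.rpow_nonneg hM0.le _) h.le hr
        _ ≤ (P ^ k) ^ (N : ℝ) := Real.rpow_le_rpow_of_exponent_le hPk hN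
        _ = (P ^ k) ^ N := Real.rpow_natCast _ _
    have h5 : M ^ (a + b) * P ^ k ≤ (P ^ k) ^ N * P ^ k :=
      mul_le_mul_of_nonneg_right h3 (by linarith)
    have h6 : (P ^ k) ^ N * P ^ k = P ^ (k * (N + 1)) := by
      rw [← pow_mul, ← pow_add]
      congr 1
    rw [h6] at h5
    linarith

theorem st_IN1 (hMAR : ST_MAR) (hIN0 : ST_IN0) : ST_IN1 := by
  intro n m p V hp hp3 hV i j hi hj a b ha hb hab F C k hF hFb
  obtain ⟨-, hec, hint⟩ := hIN0 n m p V (by linarith) hV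
  set s' : ℝ := (1 + (a + b)) / 2 with hs'
  have hs1 : s' < 1 := by rw [hs']; linarith
  have hs2 : a + b < s' := by rw [hs']; linarith
  have hs0 : 0 ≤ s' := by linarith
  obtain ⟨N, hN⟩ := exists_nat_ge ((a + b) / (s' - (a + b)))
  have I1 := in1_one hMAR hp hp3 hV hi hec hs0 hs1
  have I2 := in1_one hMAR hp hp3 hV hj hec hs0 hs1
  have I3 : Integrable (fun x : Fin m → ℝ => (1 + ‖x‖) ^ (k * (N + 1)) * ee p V x) := by
    refine hint _ 1 (k * (N + 1)) (by fun_prop : Continuous _).aestronglyMeasurable fun x => ?_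
    rw [abs_of_nonneg (by positivity), one_mul]
  have hee : ∀ x : Fin m → ℝ, 0 ≤ ee p V x := fun x => (Real.exp_pos _).le
  have hVi : Continuous fun x : Fin m → ℝ => V.mulVec x i := by fun_prop
  have hVj : Continuous fun x : Fin m → ℝ => V.mulVec x j := by fun_prop
  have hm : AEStronglyMeasurable
      (fun x : Fin m → ℝ => |V.mulVec x i| ^ (-a) * |V.mulVec x j| ^ (-b) * F x * ee p V x)
      volume := by
    refine AEStronglyMeasurable.mul (AEStronglyMeasurable.mul ?_ hF) hec.aestronglyMeasurable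
    exact ((hVi.abs.measurable.pow_const (-a)).mul
      (hVj.abs.measurable.pow_const (-b))).aestronglyMeasurable
  refine Integrable.mono' (((I1.add I2).add I3).const_mul |C|) hm ?_
  filter_upwards [GB2.row_ne V i hi, GB2.row_ne V j hj] with x hxi hxj
  have hA : 0 < |V.mulVec x i|⁻¹ := inv_pos.2 (abs_pos.2 hxi)
  have hB : 0 < |V.mulVec x j|⁻¹ := inv_pos.2 (abs_pos.2 hxj)
  have hP : 1 ≤ 1 + ‖x‖ := by have := norm_nonneg x; linarith
  have hkey := in1_pt ha hb hs2 k N hN hA hB hP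
  have e : ∀ (t r : ℝ), |t|⁻¹ ^ r = |t| ^ (-r) := fun t r => by
    rw [Real.inv_rpow (abs_nonneg _), Real.rpow_neg (abs_nonneg _)]
  rw [e, e, e, e] at hkey
  have hCF : |F x| ≤ |C| * (1 + ‖x‖) ^ k :=
    (hFb x).trans (mul_le_mul_of_nonneg_right (le_abs_self C) (by positivity))
  have hn1 : 0 ≤ |V.mulVec x i| ^ (-a) := Real.rpow_nonneg (abs_nonneg _) _
  have hn2 : 0 ≤ |V.mulVec x j| ^ (-b) := Real.rpow_nonneg (abs_nonneg _) _
  rw [Real.norm_eq_abs, abs_mul, abs_mul, abs_mul, abs_of_nonneg hn1, abs_of_nonneg hn2,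
    abs_of_nonneg (hee x)]
  have h1 : |V.mulVec x i| ^ (-a) * |V.mulVec x j| ^ (-b) * |F x|
      ≤ |C| * (|V.mulVec x i| ^ (-s') + |V.mulVec x j| ^ (-s') + (1 + ‖x‖) ^ (k * (N + 1))) := by
    calc |V.mulVec x i| ^ (-a) * |V.mulVec x j| ^ (-b) * |F x|
        ≤ |V.mulVec x i| ^ (-a) * |V.mulVec x j| ^ (-b) * (|C| * (1 + ‖x‖) ^ k) :=
          mul_le_mul_of_nonneg_left hCF (mul_nonneg hn1 hn2)
      _ = |C| * (|V.mulVec x i| ^ (-a) * |V.mulVec x j| ^ (-b) * (1 + ‖x‖) ^ k) := by ring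
      _ ≤ _ := mul_le_mul_of_nonneg_left hkey (abs_nonneg _)
  calc |V.mulVec x i| ^ (-a) * |V.mulVec x j| ^ (-b) * |F x| * ee p V x
      ≤ |C| * (|V.mulVec x i| ^ (-s') + |V.mulVec x j| ^ (-s') + (1 + ‖x‖) ^ (k * (N + 1)))
        * ee p V x := mul_le_mul_of_nonneg_right h1 (hee x)
    _ = _ := by
      show _ = |C| * (|V.mulVec x i| ^ (-s') * ee p V x + |V.mulVec x j| ^ (-s') * ee p V x
        + (1 + ‖x‖) ^ (k * (N + 1)) * ee p V x)
      ring

end Pool.Agent.Helper44.GJ
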