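import Pool.Agent.Helper44.GJ.Stmts

/-! Module LI: the local inequality. -/

open Finset MeasureTheory Filter Topology Matrix
open scoped ENNReal ContDiff

namespace Pool.Agent.Helper44.GJ

open Pool.Agent.Helper44.GF Pool.Agent.Helper44.GN Pool.Agent.Helper44.GH

theorem st_LI (hLI0 : ST_LI0) (hNRM : ST_NRM) (hROW : ST_ROW) (hABN : ST_ABN) : ST_LI := by
  intro n m p V Z hp hp' hV hz hc hZ
  obtain ⟨c, hc'⟩ := hROW n m p V hp hp' hV
  obtain ⟨C, hC, hT⟩ := hABN n m V c hc'.c0 hV
  have hu : IsUnit C.det := isUnit_iff_ne_zero.2 hC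
  obtain ⟨-, hM, hR, hM2⟩ := hNRM n m p V C hp (by linarith) hV hC
  obtain ⟨h1, h2⟩ := hM2 Z
  have hinj : Function.Injective (V * C).mulVec := by
    intro x y hxy
    have hxy' : V.mulVec (C.mulVec x) = V.mulVec (C.mulVec y) := by
      simpa only [Matrix.mulVec_mulVec] using hxy
    have h3 := hV hxy'
    have h4 : C⁻¹.mulVec (C.mulVec x) = C⁻¹.mulVec (C.mulVec y) := by rw [h3]
    simpa only [Matrix.mulVec_mulVec, Matrix.nonsing_inv_mul C hu, Matrix.one_mulVec] using h4
  have hrow : ∀ i, (V * C) i = 0 → (Z * C) i = 0 := by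
    intro i hi
    have hVi : V i = 0 := by
      have h5 : (V * C * C⁻¹) i = 0 := by
        funext k
        rw [Matrix.mul_apply]
        have h6 : ∀ j, (V * C) i j = 0 := fun j => congrFun hi j
        simp [h6]
      rw [Matrix.mul_assoc, Matrix.mul_nonsing_inv C hu, Matrix.mul_one] at h5
      exact h5
    funext k
    rw [Matrix.mul_apply]
    have h6 : ∀ j, Z i j = 0 := fun j => congrFun (hz i hVi) j
    simp [h6]
  have hZC : Z * C ≠ 0 := by
    intro h0
    apply hZ
    have h5 : Z * C * C⁻¹ = 0 := by rw [h0, Matrix.zero_mul]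
    rwa [Matrix.mul_assoc, Matrix.mul_nonsing_inv C hu, Matrix.mul_one] at h5
  have hlt := hLI0 n m p (V * C) (Z * C) c hp hp' hinj (hR c hc') hT hrow (h2 hc) hZC
  rw [← h1]
  exact mul_neg_of_neg_of_pos hlt (abs_pos.2 hC)

end Pool.Agent.Helper44.GJ
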