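import Pool.Agent.Helper44.GJ.Stmts

/-! Module NRM: change of variables. -/

open Finset MeasureTheory Filter Topology Matrix
open scoped ENNReal ContDiff

namespace Pool.Agent.Helper44.GJ

open Pool.Agent.Helper44.GF Pool.Agent.Helper44.GN Pool.Agent.Helper44.GH

theorem nrm_cv {m : ℕ} (C : Matrix (Fin m) (Fin m) ℝ) (hC : C.det ≠ 0)
    (F : (Fin m → ℝ) → ℝ) :
    (∫ x : Fin m → ℝ, F (C.mulVec x)) * |C.det| = ∫ x : Fin m → ℝ, F x := by
  have hu : IsUnit C.det := isUnit_iff_ne_zero.2 hC
  have h := Real.map_matrix_volume_pi_eq_smul_volume_pi hC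
  let e : (Fin m → ℝ) ≃ₜ (Fin m → ℝ) :=
    { toFun := fun x => C.mulVec x
      invFun := fun x => C⁻¹.mulVec x
      left_inv := fun x => by
        simp [Matrix.mulVec_mulVec, Matrix.nonsing_inv_mul C hu]
      right_inv := fun x => by
        simp [Matrix.mulVec_mulVec, Matrix.mul_nonsing_inv C hu]
      continuous_toFun := by fun_prop
      continuous_invFun := by fun_prop }
  have he : MeasurableEmbedding (fun x : Fin m → ℝ => Matrix.toLin' C x) :=
    e.measurableEmbedding
  have h2 : ∫ x, F x ∂(Measure.map (fun x : Fin m → ℝ => Matrix.toLin' C x) volume)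
      = ∫ x, F (C.mulVec x) := by
    rw [he.integral_map]
    rfl
  have h3 : Measure.map (fun x : Fin m → ℝ => Matrix.toLin' C x) volume
      = ENNReal.ofReal |C.det⁻¹| • (volume : Measure (Fin m → ℝ)) := h
  rw [h3, integral_smul_measure, ENNReal.toReal_ofReal (abs_nonneg _), smul_eq_mul] at h2
  rw [← h2, abs_inv, mul_comm _ |C.det|, ← mul_assoc, mul_inv_cancel₀ (abs_ne_zero.2 hC),
    one_mul]

theorem nrm_ee {n m : ℕ} (p : ℝ) (V : Matrix (Fin n) (Fin m) ℝ) (C : Matrix (Fin m) (Fin m) ℝ)
    (x : Fin m → ℝ) : ee p (V * C) x = ee p V (C.mulVec x) := by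
  unfold ee Ph
  simp only [Matrix.mulVec_mulVec]

theorem nrm_ie {n m : ℕ} (p : ℝ) (V : Matrix (Fin n) (Fin m) ℝ) (C : Matrix (Fin m) (Fin m) ℝ)
    (hC : C.det ≠ 0) (F : (Fin m → ℝ) → ℝ) :
    IE p (V * C) (fun x => F (C.mulVec x)) * |C.det| = IE p V F := by
  unfold IE
  rw [← nrm_cv C hC (fun x => F x * ee p V x)]
  simp only [nrm_ee]

theorem nrm_gz {n m : ℕ} (p : ℝ) (V Z : Matrix (Fin n) (Fin m) ℝ)
    (C : Matrix (Fin m) (Fin m) ℝ) (x : Fin m → ℝ) (b : Fin m) :
    gz p (V * C) (Z * C) x b = ∑ k, gz p V Z (C.mulVec x) k * C k b := by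
  unfold gz
  simp only [Matrix.mul_apply, Matrix.mulVec_mulVec, Finset.mul_sum, Finset.sum_mul]
  rw [Finset.sum_comm]
  refine Finset.sum_congr rfl fun k _ => Finset.sum_congr rfl fun i _ => ?_
  ring

theorem nrm_hz {n m : ℕ} (p : ℝ) (V Z : Matrix (Fin n) (Fin m) ℝ)
    (C : Matrix (Fin m) (Fin m) ℝ) (x : Fin m → ℝ) :
    hz p (V * C) (Z * C) x = hz p V Z (C.mulVec x) := by
  unfold hz
  simp only [Matrix.mulVec_mulVec]

theorem st_NRM (hIN0 : ST_IN0) (hGD : ST_GD) : ST_NRM := by
  intro n m p V C hp hp3 hV hC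
  have hu : IsUnit C.det := isUnit_iff_ne_zero.2 hC
  have hd : 0 < |C.det| := abs_pos.2 hC
  have hM : Mp p (V * C) * |C.det| = Mp p V := by
    unfold Mp
    rw [← nrm_cv C hC (fun x => ee p V x)]
    simp only [nrm_ee]
  have hz0 : ∀ j, (V * C) j ≠ 0 → V j ≠ 0 := by
    intro j hj h0
    apply hj
    funext k
    rw [Matrix.mul_apply]
    simp [h0]
  have hkey : ∀ (K : ℝ) (G : (Fin m → ℝ) → ℝ), IE p V G ≤ K * Mp p V →
      IE p (V * C) (fun x => G (C.mulVec x)) ≤ K * Mp p (V * C) := by
    intro K G h
    rw [← nrm_ie p V C hC G, ← hM, ← mul_assoc] at h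
    exact le_of_mul_le_mul_right h hd
  have hY : ∀ (c : Fin n → ℝ) (j : Fin n) (x : Fin m → ℝ),
      Yj p (V * C) c j x = Yj p V c j (C.mulVec x) := by
    intro c j x
    unfold Yj
    simp only [Matrix.mulVec_mulVec]
  refine ⟨fun F => nrm_ie p V C hC F, hM, fun c hc => ?_, fun Z => ⟨?_, fun h a b => ?_⟩⟩
  · exact
      { c0 := hc.c0
        r1 := fun j hj => by
          have := hkey _ _ (hc.r1 j (hz0 j hj))
          simpa only [hY] using this
        r2 := fun j hj => by
          have := hkey _ _ (hc.r2 j (hz0 j hj))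
          simpa only [hY] using this
        r3 := fun j hj => by
          have := hkey _ _ (hc.r3 j (hz0 j hj))
          simpa only [hY] using this
        r4 := fun j hj => by
          have := hkey _ _ (hc.r4 j (hz0 j hj))
          simpa only [hY] using this
        r5 := fun j hj => by
          have := hkey _ _ (hc.r5 j (hz0 j hj))
          simpa only [hY] using this
        r6 := fun j hj => by
          have := hkey _ _ (hc.r6 j (hz0 j hj))
          simpa only [hY] using this }
  · unfold M2
    rw [← nrm_ie p V C hC]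
    simp only [nrm_hz, Matrix.mulVec_mulVec]
  · obtain ⟨hMp, hec, hint⟩ := hIN0 n m p V (by linarith) hV
    obtain ⟨-, -, hg1c, -, -, -, hg1b, -⟩ := hGD p hp hp3
    -- integrability
    have hi : ∀ l k : Fin m, Integrable (fun y : Fin m → ℝ => y l * gz p V Z y k * ee p V y) := by
      intro l k
      have hVb : ∀ i, ∃ D : ℝ, 0 ≤ D ∧ ∀ y : Fin m → ℝ, |V.mulVec y i| ≤ D * ‖y‖ := by
        intro i
        refine ⟨∑ a, |V i a|, Finset.sum_nonneg fun a _ => abs_nonneg _, fun y => ?_⟩
        show |∑ a, V i a * y a| ≤ _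
        refine (Finset.abs_sum_le_sum_abs _ _).trans ?_
        rw [Finset.sum_mul]
        refine Finset.sum_le_sum fun a _ => ?_
        rw [abs_mul]
        exact mul_le_mul_of_nonneg_left (by
          rw [← Real.norm_eq_abs]; exact norm_le_pi_norm y a) (abs_nonneg _)
      choose D hD0 hD using hVb
      refine hint _ (∑ i, 3 * (1 + D i) ^ 2 * |Z i k|) 3 ?_ ?_
      · refine Continuous.aestronglyMeasurable ?_
        unfold gz
        refine (continuous_apply l).mul (continuous_finsetSum _ fun i _ => ?_)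
        refine Continuous.mul (hg1c.comp ?_) continuous_const
        show Continuous fun y : Fin m → ℝ => V.mulVec y i
        fun_prop
      · intro y
        have hy : |y l| ≤ 1 + ‖y‖ := by
          have : |y l| ≤ ‖y‖ := by rw [← Real.norm_eq_abs]; exact norm_le_pi_norm y l
          linarith
        have hn : 0 ≤ ‖y‖ := norm_nonneg y
        have hg : |gz p V Z y k| ≤ (∑ i, 3 * (1 + D i) ^ 2 * |Z i k|) * (1 + ‖y‖) ^ 2 := by
          unfold gz
          refine (Finset.abs_sum_le_sum_abs _ _).trans ?_
          rw [Finset.sum_mul]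
          refine Finset.sum_le_sum fun i _ => ?_
          rw [abs_mul]
          have h1 : |g1 p (V.mulVec y i)| ≤ 3 * (1 + D i) ^ 2 * (1 + ‖y‖) ^ 2 := by
            refine (hg1b _).trans ?_
            have h2 : 1 + |V.mulVec y i| ≤ (1 + D i) * (1 + ‖y‖) := by
              have := hD i y
              have := hD0 i
              nlinarith
            have h3 : (1 + |V.mulVec y i|) ^ 2 ≤ ((1 + D i) * (1 + ‖y‖)) ^ 2 := by
              have := abs_nonneg (V.mulVec y i)
              exact pow_le_pow_left₀ (by linarith) h2 2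
            calc 3 * (1 + |V.mulVec y i|) ^ 2 ≤ 3 * ((1 + D i) * (1 + ‖y‖)) ^ 2 := by linarith
              _ = _ := by ring
          calc |g1 p (V.mulVec y i)| * |Z i k|
              ≤ (3 * (1 + D i) ^ 2 * (1 + ‖y‖) ^ 2) * |Z i k| :=
                mul_le_mul_of_nonneg_right h1 (abs_nonneg _)
            _ = _ := by ring
        rw [abs_mul]
        have h0 : 0 ≤ (∑ i, 3 * (1 + D i) ^ 2 * |Z i k|) * (1 + ‖y‖) ^ 2 := by
          refine mul_nonneg (Finset.sum_nonneg fun i _ => ?_) (by positivity)
          have := abs_nonneg (Z i k)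
          positivity
        calc |y l| * |gz p V Z y k|
            ≤ (1 + ‖y‖) * ((∑ i, 3 * (1 + D i) ^ 2 * |Z i k|) * (1 + ‖y‖) ^ 2) :=
              mul_le_mul hy hg (abs_nonneg _) (by linarith)
          _ = _ := by ring
    have hF : IE p (V * C) (fun x => x a * gz p (V * C) (Z * C) x b) * |C.det| = 0 := by
      have h1 : (fun x : Fin m → ℝ => x a * gz p (V * C) (Z * C) x b)
          = fun x => (fun y : Fin m → ℝ => ∑ l, ∑ k, C⁻¹ a l * C k b * (y l * gz p V Z y k))
            (C.mulVec x) := by
        funext x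
        have h2 : x a = ∑ l, C⁻¹ a l * C.mulVec x l := by
          have : C⁻¹.mulVec (C.mulVec x) = x := by
            rw [Matrix.mulVec_mulVec, Matrix.nonsing_inv_mul C hu, Matrix.one_mulVec]
          conv_lhs => rw [← this]
          rfl
        rw [nrm_gz]
        show x a * _ = _
        rw [h2, Finset.sum_mul]
        refine Finset.sum_congr rfl fun l _ => ?_
        rw [Finset.mul_sum]
        refine Finset.sum_congr rfl fun k _ => ?_
        ring
      rw [h1]
      refine (nrm_ie p V C hC (fun y : Fin m → ℝ =>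
        ∑ l, ∑ k, C⁻¹ a l * C k b * (y l * gz p V Z y k))).trans ?_
      unfold IE
      simp only [Finset.sum_mul]
      rw [integral_finsetSum]
      · refine Finset.sum_eq_zero fun l _ => ?_
        rw [integral_finsetSum]
        · refine Finset.sum_eq_zero fun k _ => ?_
          have h3 : (fun y : Fin m → ℝ => C⁻¹ a l * C k b * (y l * gz p V Z y k) * ee p V y)
              = fun y => (C⁻¹ a l * C k b) * (y l * gz p V Z y k * ee p V y) := by
            funext y; ring
          rw [h3, integral_const_mul]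
          have h4 := h l k
          unfold IE at h4
          rw [h4, mul_zero]
        · intro k _
          have h3 : (fun y : Fin m → ℝ => C⁻¹ a l * C k b * (y l * gz p V Z y k) * ee p V y)
              = fun y => (C⁻¹ a l * C k b) * (y l * gz p V Z y k * ee p V y) := by
            funext y; ring
          rw [h3]
          exact (hi l k).const_mul _
      · intro l _
        refine integrable_finsetSum _ fun k _ => ?_
        have h3 : (fun y : Fin m → ℝ => C⁻¹ a l * C k b * (y l * gz p V Z y k) * ee p V y)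
            = fun y => (C⁻¹ a l * C k b) * (y l * gz p V Z y k * ee p V y) := by
          funext y; ring
        rw [h3]
        exact (hi l k).const_mul _
    exact (mul_eq_zero.1 hF).resolve_right hd.ne'

end Pool.Agent.Helper44.GJ
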