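import Pool.Agent.Helper44.GJ.Stmts
import Pool.Agent.Helper63.GH.BER

/-! Module SCB: the scale of a log-concave density. -/

open Finset MeasureTheory Filter Topology
open scoped ENNReal ContDiff

namespace Pool.Agent.Helper44.GJ

/-- Exponential decay. -/
theorem scb_exp {f : ℝ → ℝ} {M : ℝ} (hf : LC f M) :
    ∃ K d : ℝ, 0 < K ∧ 0 < d ∧ ∀ t, 0 < t → f t ≤ K * Real.exp (-(d * t)) := by
  have h1 : ∃ t1 : ℝ, 1 < t1 ∧ f t1 < f 1 := by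
    by_contra hcon
    push Not at hcon
    have h2 : IntegrableOn f (Set.Ioi 1) := hf.it.mono_set (Set.Ioi_subset_Ioi zero_le_one)
    have h3 : IntegrableOn (fun _ : ℝ => f 1) (Set.Ioi 1) := by
      refine Integrable.mono' h2 aestronglyMeasurable_const ?_
      filter_upwards [ae_restrict_mem measurableSet_Ioi] with t ht
      rw [Real.norm_eq_abs, abs_of_pos (hf.ps 1 one_pos)]
      exact hcon t ht
    rw [integrableOn_const_iff] at h3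
    rcases h3 with h3 | h3
    · rw [enorm_eq_zero] at h3
      exact absurd h3 (hf.ps 1 one_pos).ne'
    · rw [Real.volume_Ioi] at h3
      exact absurd h3 (lt_irrefl _)
  obtain ⟨t1, ht1, hft1⟩ := h1
  obtain ⟨C, hC⟩ := hf.bd
  have hf1 := hf.ps 1 one_pos
  have hft1p := hf.ps t1 (by linarith)
  set d : ℝ := Real.log (f 1 / f t1) / (t1 - 1) with hd
  have hlog : 0 < Real.log (f 1 / f t1) := Real.log_pos ((one_lt_div hft1p).2 hft1)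
  have hd0 : 0 < d := div_pos hlog (by linarith)
  have hC0 : 0 < C := lt_of_lt_of_le hf1 (hC 1 one_pos)
  refine ⟨(C + f 1) * Real.exp (d * (t1 + 1)), d, by positivity, hd0, fun t ht => ?_⟩
  rw [mul_assoc, ← Real.exp_add]
  rcases le_or_gt t t1 with h | h
  · have h2 : (1 : ℝ) ≤ Real.exp (d * (t1 + 1) + -(d * t)) := by
      apply Real.one_le_exp
      nlinarith
    have := hC t ht
    nlinarith
  · set l : ℝ := (t1 - 1) / (t - 1) with hl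
    have ht0 : 0 < t - 1 := by linarith
    have hl0 : 0 < l := div_pos (by linarith) ht0
    have hl1 : l < 1 := by
      rw [hl, div_lt_one ht0]
      linarith
    have h2 := hf.lc 1 t (1 - l) l one_pos ht (by linarith) hl0 (by ring)
    have h3 : (1 - l) * 1 + l * t = t1 := by
      have : l * (t - 1) = t1 - 1 := by rw [hl]; field_simp
      linarith
    rw [h3] at h2
    have hft := hf.ps t ht
    -- take logarithms
    have h4 : (1 - l) * Real.log (f 1) + l * Real.log (f t) ≤ Real.log (f t1) := by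
      have h5 := Real.log_le_log (mul_pos (Real.rpow_pos_of_pos hf1 _)
        (Real.rpow_pos_of_pos hft _)) h2
      rwa [Real.log_mul (Real.rpow_pos_of_pos hf1 _).ne' (Real.rpow_pos_of_pos hft _).ne',
        Real.log_rpow hf1, Real.log_rpow hft] at h5
    have h6 : Real.log (f 1 / f t1) = Real.log (f 1) - Real.log (f t1) :=
      Real.log_div hf1.ne' hft1p.ne'
    have h7 : Real.log (f t) ≤ Real.log (f 1) - d * (t - 1) := by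
      have h8 : d * (t - 1) * l = Real.log (f 1) - Real.log (f t1) := by
        rw [hd, hl, ← h6]
        have : t1 - 1 ≠ 0 := by linarith
        field_simp
      have h9 : l * Real.log (f t) ≤ l * (Real.log (f 1) - d * (t - 1)) := by
        calc l * Real.log (f t) ≤ Real.log (f t1) - (1 - l) * Real.log (f 1) := by linarith
          _ = l * Real.log (f 1) - (Real.log (f 1) - Real.log (f t1)) := by ring
          _ = l * (Real.log (f 1) - d * (t - 1)) := by rw [← h8]; ring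
      exact le_of_mul_le_mul_left h9 hl0
    have h10 : f t ≤ f 1 * Real.exp (-(d * (t - 1))) := by
      rw [← Real.log_le_log_iff hft (mul_pos hf1 (Real.exp_pos _)),
        Real.log_mul hf1.ne' (Real.exp_pos _).ne', Real.log_exp]
      linarith
    have h11 : Real.exp (-(d * (t - 1))) ≤ Real.exp (d * (t1 + 1) + -(d * t)) := by
      apply Real.exp_le_exp.2
      nlinarith
    have h12 := Real.exp_pos (-(d * (t - 1)))
    nlinarith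

theorem scb_ei (A B q : ℝ) (hB : 0 < B) (hq : -1 < q) :
    IntegrableOn (fun t => t ^ q * (A * Real.exp (-(B * t)))) (Set.Ioi (0 : ℝ)) ∧
    ∫ t in Set.Ioi (0 : ℝ), t ^ q * (A * Real.exp (-(B * t)))
      = A * B ^ (-(q + 1)) * Real.Gamma (q + 1) := by
  constructor
  · have h := integrableOn_rpow_mul_exp_neg_mul_rpow (p := 1) (s := q) (b := B) hq one_pos hB
    have h2 : IntegrableOn (fun x : ℝ => A * (x ^ q * Real.exp (-B * x ^ (1 : ℝ))))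
        (Set.Ioi 0) := h.const_mul A
    refine h2.congr_fun ?_ measurableSet_Ioi
    intro t ht
    simp only [Real.rpow_one]
    have : -B * t = -(B * t) := by ring
    rw [this]; ring
  · have h := Real.integral_rpow_mul_exp_neg_mul_Ioi (a := q + 1) (r := B) (by linarith) hB
    have e : ∀ t : ℝ, t ^ q * (A * Real.exp (-(B * t)))
        = A * (t ^ (q + 1 - 1) * Real.exp (-(B * t))) := by
      intro t; rw [add_sub_cancel_right]; ring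
    simp only [e]
    rw [integral_const_mul, h, one_div, Real.inv_rpow hB.le, Real.rpow_neg hB.le]
    ring

theorem scb_int {f : ℝ → ℝ} {M : ℝ} (hf : LC f M) {q : ℝ} (hq : -1 < q) :
    IntegrableOn (fun t => t ^ q * f t) (Set.Ioi (0 : ℝ)) := by
  obtain ⟨K, d, hK, hd, h⟩ := scb_exp hf
  refine Integrable.mono' (scb_ei K d q hd hq).1
    (((measurable_id.pow_const q).mul hf.ms).aestronglyMeasurable) ?_
  filter_upwards [ae_restrict_mem measurableSet_Ioi] with t ht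
  have ht' : (0 : ℝ) < t := ht
  have h2 : 0 ≤ t ^ q := Real.rpow_nonneg ht'.le _
  rw [Real.norm_eq_abs, abs_mul, abs_of_nonneg h2, abs_of_pos (hf.ps t ht')]
  exact mul_le_mul_of_nonneg_left (h t ht') h2

/-- The fifth moment expansion. -/
theorem scb_five {g : ℝ → ℝ} (hg : ∀ q : ℝ, -1 < q →
    IntegrableOn (fun t => t ^ q * g t) (Set.Ioi (0 : ℝ))) {μ : ℝ} (hμ : 0 < μ) :
    IntegrableOn (fun t => (t ^ (1 / 5 : ℝ) / μ + μ / t ^ (1 / 5 : ℝ) - 2) ^ 2 * g t)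
      (Set.Ioi (0 : ℝ)) ∧
    ∫ t in Set.Ioi (0 : ℝ), (t ^ (1 / 5 : ℝ) / μ + μ / t ^ (1 / 5 : ℝ) - 2) ^ 2 * g t
      = (∫ t in Set.Ioi (0 : ℝ), t ^ (2 / 5 : ℝ) * g t) / μ ^ 2
        + μ ^ 2 * (∫ t in Set.Ioi (0 : ℝ), t ^ (-(2 / 5) : ℝ) * g t)
        + 6 * (∫ t in Set.Ioi (0 : ℝ), t ^ (0 : ℝ) * g t)
        - 4 / μ * (∫ t in Set.Ioi (0 : ℝ), t ^ (1 / 5 : ℝ) * g t)
        - 4 * μ * (∫ t in Set.Ioi (0 : ℝ), t ^ (-(1 / 5) : ℝ) * g t) := by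
  have i1 := hg (2 / 5) (by norm_num)
  have i2 := hg (-(2 / 5)) (by norm_num)
  have i3 := hg 0 (by norm_num)
  have i4 := hg (1 / 5) (by norm_num)
  have i5 := hg (-(1 / 5)) (by norm_num)
  have e : ∀ t ∈ Set.Ioi (0 : ℝ),
      (t ^ (1 / 5 : ℝ) / μ + μ / t ^ (1 / 5 : ℝ) - 2) ^ 2 * g t
      = ((((1 / μ ^ 2) * (t ^ (2 / 5 : ℝ) * g t) + μ ^ 2 * (t ^ (-(2 / 5) : ℝ) * g t))
        + 6 * (t ^ (0 : ℝ) * g t)) - 4 / μ * (t ^ (1 / 5 : ℝ) * g t))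
        - 4 * μ * (t ^ (-(1 / 5) : ℝ) * g t) := by
    intro t ht
    have ht' : (0 : ℝ) < t := ht
    have hy : 0 < t ^ (1 / 5 : ℝ) := Real.rpow_pos_of_pos ht' _
    have a1 : t ^ (2 / 5 : ℝ) = (t ^ (1 / 5 : ℝ)) ^ 2 := by
      rw [← Real.rpow_natCast, ← Real.rpow_mul ht'.le]; norm_num
    have a2 : t ^ (-(1 / 5) : ℝ) = (t ^ (1 / 5 : ℝ))⁻¹ := Real.rpow_neg ht'.le _
    have a3 : t ^ (-(2 / 5) : ℝ) = ((t ^ (1 / 5 : ℝ)) ^ 2)⁻¹ := by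
      rw [Real.rpow_neg ht'.le, a1]
    rw [a1, a2, a3, Real.rpow_zero]
    generalize t ^ (1 / 5 : ℝ) = y at hy ⊢
    field_simp
    ring
  have s12 : IntegrableOn (fun t => (1 / μ ^ 2) * (t ^ (2 / 5 : ℝ) * g t)
      + μ ^ 2 * (t ^ (-(2 / 5) : ℝ) * g t)) (Set.Ioi (0 : ℝ)) :=
    (i1.const_mul _).add (i2.const_mul _)
  have s123 : IntegrableOn (fun t => ((1 / μ ^ 2) * (t ^ (2 / 5 : ℝ) * g t)
      + μ ^ 2 * (t ^ (-(2 / 5) : ℝ) * g t)) + 6 * (t ^ (0 : ℝ) * g t)) (Set.Ioi (0 : ℝ)) :=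
    s12.add (i3.const_mul _)
  have s1234 : IntegrableOn (fun t => (((1 / μ ^ 2) * (t ^ (2 / 5 : ℝ) * g t)
      + μ ^ 2 * (t ^ (-(2 / 5) : ℝ) * g t)) + 6 * (t ^ (0 : ℝ) * g t))
      - 4 / μ * (t ^ (1 / 5 : ℝ) * g t)) (Set.Ioi (0 : ℝ)) :=
    s123.sub (i4.const_mul _)
  have hI : IntegrableOn (fun t => ((((1 / μ ^ 2) * (t ^ (2 / 5 : ℝ) * g t)
      + μ ^ 2 * (t ^ (-(2 / 5) : ℝ) * g t))
        + 6 * (t ^ (0 : ℝ) * g t)) - 4 / μ * (t ^ (1 / 5 : ℝ) * g t))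
        - 4 * μ * (t ^ (-(1 / 5) : ℝ) * g t)) (Set.Ioi (0 : ℝ)) :=
    s1234.sub (i5.const_mul _)
  refine ⟨hI.congr_fun (fun t ht => (e t ht).symm) measurableSet_Ioi, ?_⟩
  rw [setIntegral_congr_fun measurableSet_Ioi e]
  rw [integral_sub s1234 (i5.const_mul _), integral_sub s123 (i4.const_mul _),
    integral_add s12 (i3.const_mul _), integral_add (i1.const_mul _) (i2.const_mul _)]
  simp only [integral_const_mul]
  ring

theorem scb_pow {x : ℝ} (hx : 0 < x) : (x ^ 5) ^ (1 / 5 : ℝ) = x ∧ (x ^ 5) ^ (2 / 5 : ℝ) = x ^ 2 ∧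
    (x ^ 5) ^ (-(1 / 5) : ℝ) = x⁻¹ ∧ (x ^ 5) ^ (-(2 / 5) : ℝ) = (x ^ 2)⁻¹ := by
  have h : ∀ r : ℝ, (x ^ 5) ^ r = x ^ (5 * r) := fun r => by
    rw [← Real.rpow_natCast, ← Real.rpow_mul hx.le]
    norm_num
  refine ⟨?_, ?_, ?_, ?_⟩
  · rw [h]; norm_num
  · rw [h, ← Real.rpow_natCast]; norm_num
  · rw [h, ← Real.rpow_neg_one]; norm_num
  · rw [h, ← Real.rpow_natCast x 2, ← Real.rpow_neg hx.le]; norm_num

theorem scb_val {M l q : ℝ} (hl : 0 < l) (hq : -1 < q) :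
    ∫ t in Set.Ioi (0 : ℝ), t ^ q * (M * l * Real.exp (-(l * t)))
      = M * l ^ (-q) * Real.Gamma (q + 1) := by
  rw [(scb_ei (M * l) l q hl hq).2]
  have : l * l ^ (-(q + 1)) = l ^ (-q) := by
    have h1 : l ^ (-q) = l ^ (1 + -(q + 1)) := by congr 1; ring
    rw [h1, Real.rpow_add hl, Real.rpow_one]
  rw [← this]
  ring

theorem scb_poly {k r P Q : ℝ} (hk : 1 ≤ k) (hk2 : k ^ 2 ≤ 1069 / 1000) (hr : 1043 / 1000 ≤ r)
    (hr2 : r ≤ 11 / 10) (hP : 10689 / 10000 ≤ P) (hQ : Q * r ≤ 13214 / 10000) :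
    r * k ^ 2 + Q / k ^ 2 + 6 - 4 * k - 4 * P / k ≤ 1 / 20 := by
  have hk0 : 0 < k := by linarith
  have hk1 : k ≤ 1034 / 1000 := by nlinarith
  have hQ' : Q ≤ 24683 / 10000 - 11517 / 10000 * r := by
    by_contra hcon
    push Not at hcon
    have h1 : (24683 / 10000 - 11517 / 10000 * r) * r < Q * r :=
      mul_lt_mul_of_pos_right hcon (by linarith)
    nlinarith [mul_nonneg (by linarith : 0 ≤ r - 1043 / 1000) (by linarith : 0 ≤ 11 / 10 - r)]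
  have hk4 : k ^ 4 ≤ 11517 / 10000 := by
    have : k ^ 4 = (k ^ 2) ^ 2 := by ring
    rw [this]
    nlinarith [sq_nonneg k]
  have h2 : r * k ^ 4 + Q ≤ 1043 / 1000 * k ^ 4 + 1267082 / 1000000 := by nlinarith
  have h3 : 1043 / 1000 * k ^ 4 + 1267082 / 1000000 + 6 * k ^ 2 - 4 * k ^ 3
      - 4 * (10689 / 10000) * k ≤ k ^ 2 / 20 := by
    obtain ⟨x, rfl⟩ : ∃ x, k = 1 + x := ⟨k - 1, by ring⟩
    have hx0 : 0 ≤ x := by linarith
    have hx1 : x ≤ 34 / 1000 := by linarith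
    have hx2 : x ^ 2 ≤ 34 / 1000 * x := by nlinarith
    have hx3 : x ^ 3 ≤ 34 / 1000 * x := by nlinarith
    have hx4 : x ^ 4 ≤ 34 / 1000 * x := by nlinarith [mul_nonneg hx0 hx0]
    nlinarith
  have h4 : r * k ^ 2 + Q / k ^ 2 + 6 - 4 * k - 4 * P / k
      = (r * k ^ 4 + Q + 6 * k ^ 2 - 4 * k ^ 3 - 4 * P * k) / k ^ 2 := by
    field_simp
  rw [h4, div_le_iff₀ (by positivity)]
  have h5 : 4 * (10689 / 10000) * k ≤ 4 * P * k := by nlinarith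
  linarith

theorem scb_e1 (g : ℝ → ℝ) (t : ℝ) (ht : t ∈ Set.Ioi (0 : ℝ)) :
    (t ^ (1 / 5 : ℝ))⁻¹ * g t = t ^ (-(1 / 5) : ℝ) * g t := by
  rw [Real.rpow_neg (le_of_lt ht)]

theorem scb_g2 (t : ℝ) (ht : t ∈ Set.Ioi (0 : ℝ)) :
    (t ^ (-(1 / 5) : ℝ)) ^ 2 = t ^ (-(2 / 5) : ℝ) := by
  rw [← Real.rpow_natCast, ← Real.rpow_mul (le_of_lt ht)]
  norm_num

theorem scb_inv : ConvexOn ℝ (Set.Ioi (0 : ℝ)) (fun y : ℝ => y⁻¹) := by
  have := convexOn_zpow (𝕜 := ℝ) (-1)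
  simpa only [zpow_neg_one] using this

theorem scb_mono : StrictMonoOn (fun t : ℝ => t ^ (1 / 5 : ℝ)) (Set.Ioi 0) := by
  intro x hx y _ hxy
  exact Real.rpow_lt_rpow (le_of_lt hx) hxy (by norm_num)

theorem scb_anti : StrictAntiOn (fun t : ℝ => t ^ (-(1 / 5) : ℝ)) (Set.Ioi 0) := by
  intro x hx y _ hxy
  exact Real.rpow_lt_rpow_of_neg hx hxy (by norm_num)

theorem scb_m0 {f : ℝ → ℝ} {M : ℝ} (hf : LC f M) :
    ∫ t in Set.Ioi (0 : ℝ), t ^ (0 : ℝ) * f t = M := by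
  simp only [Real.rpow_zero, one_mul]
  exact hf.ma

theorem scb_k1 {f : ℝ → ℝ} {M μ k : ℝ} (hf : LC f M) (hμ0 : 0 < μ)
    (ha : ∫ t in Set.Ioi (0 : ℝ), t ^ (1 / 5 : ℝ) * f t = M * (k * μ))
    (hb : ∫ t in Set.Ioi (0 : ℝ), t ^ (-(1 / 5) : ℝ) * f t = M * (k / μ)) : 1 ≤ k := by
  have i1 := scb_int hf (q := 1 / 5) (by norm_num)
  have i2 := scb_int hf (q := -(1 / 5)) (by norm_num)
  have i0 := scb_int hf (q := 0) (by norm_num)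
  have v0 := scb_m0 hf
  have hM := hf.mp
  have h1 : 0 ≤ ∫ t in Set.Ioi (0 : ℝ), ((1 / μ * (t ^ (1 / 5 : ℝ) * f t)
      + μ * (t ^ (-(1 / 5) : ℝ) * f t)) - 2 * (t ^ (0 : ℝ) * f t)) := by
    refine setIntegral_nonneg measurableSet_Ioi fun t ht => ?_
    have ht' : (0 : ℝ) < t := ht
    have hy : 0 < t ^ (1 / 5 : ℝ) := Real.rpow_pos_of_pos ht' _
    have h2 : (1 / μ * (t ^ (1 / 5 : ℝ) * f t) + μ * (t ^ (-(1 / 5) : ℝ) * f t))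
        - 2 * (t ^ (0 : ℝ) * f t)
        = (t ^ (1 / 5 : ℝ) - μ) ^ 2 / (μ * t ^ (1 / 5 : ℝ)) * f t := by
      rw [Real.rpow_neg ht'.le, Real.rpow_zero]
      generalize t ^ (1 / 5 : ℝ) = y at hy ⊢
      field_simp
      ring
    rw [h2]
    exact mul_nonneg (div_nonneg (sq_nonneg _) (mul_pos hμ0 hy).le) (hf.ps t ht').le
  have s12 : IntegrableOn (fun t => 1 / μ * (t ^ (1 / 5 : ℝ) * f t)
      + μ * (t ^ (-(1 / 5) : ℝ) * f t)) (Set.Ioi (0 : ℝ)) :=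
    (i1.const_mul _).add (i2.const_mul _)
  rw [integral_sub s12 (i0.const_mul _), integral_add (i1.const_mul _) (i2.const_mul _),
    integral_const_mul, integral_const_mul, integral_const_mul, ha, hb, v0] at h1
  have h3 : 1 / μ * (M * (k * μ)) + μ * (M * (k / μ)) - 2 * M = 2 * M * (k - 1) := by
    field_simp
    ring
  rw [h3] at h1
  clear ha hb v0 h3
  have h4 : 0 ≤ k - 1 := by
    by_contra hcon
    push Not at hcon
    have := mul_neg_of_pos_of_neg (by linarith : 0 < 2 * M) hcon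
    linarith
  linarith

/-- The first comparison exponential. -/
theorem scb_u {M z : ℝ} (hz : 0 < z) :
    (∫ t in Set.Ioi (0 : ℝ), t ^ (1 / 5 : ℝ) * (M * z ^ 5 * Real.exp (-(z ^ 5 * t)))
      = M * z⁻¹ * Real.Gamma (6 / 5)) ∧
    (∫ t in Set.Ioi (0 : ℝ), t ^ (-(1 / 5) : ℝ) * (M * z ^ 5 * Real.exp (-(z ^ 5 * t)))
      = M * z * Real.Gamma (4 / 5)) ∧
    (∫ t in Set.Ioi (0 : ℝ), t ^ (2 / 5 : ℝ) * (M * z ^ 5 * Real.exp (-(z ^ 5 * t)))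
      = M * (z ^ 2)⁻¹ * Real.Gamma (7 / 5)) ∧
    (∫ t in Set.Ioi (0 : ℝ), t ^ (-(2 / 5) : ℝ) * (M * z ^ 5 * Real.exp (-(z ^ 5 * t)))
      = M * z ^ 2 * Real.Gamma (3 / 5)) ∧
    ∫ t in Set.Ioi (0 : ℝ), t ^ (0 : ℝ) * (M * z ^ 5 * Real.exp (-(z ^ 5 * t))) = M := by
  have hl0 : 0 < z ^ 5 := pow_pos hz 5
  obtain ⟨l1, l2, l3, l4⟩ := scb_pow hz
  have e65 : (1 / 5 : ℝ) + 1 = 6 / 5 := by norm_num
  have e45 : (-(1 / 5) : ℝ) + 1 = 4 / 5 := by norm_num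
  have e75 : (2 / 5 : ℝ) + 1 = 7 / 5 := by norm_num
  have e35 : (-(2 / 5) : ℝ) + 1 = 3 / 5 := by norm_num
  refine ⟨?_, ?_, ?_, ?_, ?_⟩
  · rw [scb_val hl0 (by norm_num), e65, l3]
  · rw [scb_val hl0 (by norm_num), e45, neg_neg, l1]
  · rw [scb_val hl0 (by norm_num), e75, l4]
  · rw [scb_val hl0 (by norm_num), e35, neg_neg, l2]
  · rw [scb_val hl0 (by norm_num), neg_zero, Real.rpow_zero, zero_add, Real.Gamma_one]
    ring

theorem scb_c1 (hCPE : ST_CPE) {f : ℝ → ℝ} {M μ k : ℝ} (hf : LC f M) (hμ0 : 0 < μ)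
    (hk0 : 0 < k)
    (ha : ∫ t in Set.Ioi (0 : ℝ), t ^ (1 / 5 : ℝ) * f t = M * (k * μ))
    (hb : ∫ t in Set.Ioi (0 : ℝ), t ^ (-(1 / 5) : ℝ) * f t = M * (k / μ)) :
    k ^ 2 ≤ Real.Gamma (6 / 5) * Real.Gamma (4 / 5) := by
  have p65 : 0 < Real.Gamma (6 / 5) := Real.Gamma_pos_of_pos (by norm_num)
  have hM := hf.mp
  obtain ⟨z, hz⟩ : ∃ z : ℝ, z = Real.Gamma (6 / 5) / (k * μ) := ⟨_, rfl⟩
  have hz0 : 0 < z := by rw [hz]; positivity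
  obtain ⟨u1, u2, -, -, -⟩ := scb_u (M := M) hz0
  have i1 := scb_int hf (q := 1 / 5) (by norm_num)
  have i2 := scb_int hf (q := -(1 / 5)) (by norm_num)
  have hl0 : 0 < z ^ 5 := pow_pos hz0 5
  have g1 := (scb_ei (M * z ^ 5) (z ^ 5) (1 / 5) hl0 (by norm_num)).1
  have g2 := (scb_ei (M * z ^ 5) (z ^ 5) (-(1 / 5)) hl0 (by norm_num)).1
  have hzz : z⁻¹ * Real.Gamma (6 / 5) = k * μ := by rw [hz]; field_simp
  have c1 := hCPE f M (z ^ 5) (fun t => t ^ (1 / 5 : ℝ)) (fun y => y⁻¹) hf hl0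
    (fun t ht => Real.rpow_pos_of_pos ht _) (Or.inl scb_mono) i1 g1
    (by rw [ha, u1, mul_assoc, hzz]) scb_inv
    (i2.congr_fun (fun t ht => (scb_e1 f t ht).symm) measurableSet_Ioi)
    (g2.congr_fun (fun t ht =>
      (scb_e1 (fun t => M * z ^ 5 * Real.exp (-(z ^ 5 * t))) t ht).symm) measurableSet_Ioi)
  rw [setIntegral_congr_fun measurableSet_Ioi (scb_e1 f),
    setIntegral_congr_fun measurableSet_Ioi
      (scb_e1 (fun t => M * z ^ 5 * Real.exp (-(z ^ 5 * t)))),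
    hb, u2] at c1
  clear u1 u2 g1 g2 i1 i2 ha hb
  have h1 : k / μ ≤ z * Real.Gamma (4 / 5) := by
    have : M * (k / μ) ≤ M * (z * Real.Gamma (4 / 5)) := by
      rw [← mul_assoc]; exact c1
    exact le_of_mul_le_mul_left this hM
  calc k ^ 2 = k * μ * (k / μ) := by field_simp
    _ ≤ k * μ * (z * Real.Gamma (4 / 5)) :=
      mul_le_mul_of_nonneg_left h1 (by positivity)
    _ = Real.Gamma (6 / 5) * Real.Gamma (4 / 5) := by rw [hz]; field_simp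

theorem scb_c2 (hCPE : ST_CPE) {f : ℝ → ℝ} {M μ k : ℝ} (hf : LC f M) (hμ0 : 0 < μ)
    (hk0 : 0 < k)
    (hb : ∫ t in Set.Ioi (0 : ℝ), t ^ (-(1 / 5) : ℝ) * f t = M * (k / μ)) :
    μ ^ 2 * ∫ t in Set.Ioi (0 : ℝ), t ^ (-(2 / 5) : ℝ) * f t
      ≤ M * (Real.Gamma (3 / 5) / Real.Gamma (4 / 5) ^ 2 * k ^ 2) := by
  have p45 : 0 < Real.Gamma (4 / 5) := Real.Gamma_pos_of_pos (by norm_num)
  obtain ⟨z, hz⟩ : ∃ z : ℝ, z = k / μ / Real.Gamma (4 / 5) := ⟨_, rfl⟩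
  have hz0 : 0 < z := by rw [hz]; positivity
  obtain ⟨-, u2, -, u4, -⟩ := scb_u (M := M) hz0
  have i2 := scb_int hf (q := -(1 / 5)) (by norm_num)
  have i3 := scb_int hf (q := -(2 / 5)) (by norm_num)
  have hl0 : 0 < z ^ 5 := pow_pos hz0 5
  have g2 := (scb_ei (M * z ^ 5) (z ^ 5) (-(1 / 5)) hl0 (by norm_num)).1
  have g3 := (scb_ei (M * z ^ 5) (z ^ 5) (-(2 / 5)) hl0 (by norm_num)).1
  have hzz : z * Real.Gamma (4 / 5) = k / μ := by rw [hz]; field_simp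
  have hsq : ConvexOn ℝ (Set.Ioi (0 : ℝ)) (fun y : ℝ => y ^ 2) :=
    (Even.convexOn_pow even_two).subset (Set.subset_univ _) (convex_Ioi 0)
  have e2 : ∀ (g : ℝ → ℝ), ∀ t ∈ Set.Ioi (0 : ℝ), (t ^ (-(1 / 5) : ℝ)) ^ 2 * g t
      = t ^ (-(2 / 5) : ℝ) * g t := by
    intro g t ht
    rw [scb_g2 t ht]
  have c2 := hCPE f M (z ^ 5) (fun t => t ^ (-(1 / 5) : ℝ)) (fun y => y ^ 2) hf hl0
    (fun t ht => Real.rpow_pos_of_pos ht _) (Or.inr scb_anti) i2 g2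
    (by rw [hb, u2, mul_assoc, hzz]) hsq
    (i3.congr_fun (fun t ht => (e2 f t ht).symm) measurableSet_Ioi)
    (g3.congr_fun (fun t ht =>
      (e2 (fun t => M * z ^ 5 * Real.exp (-(z ^ 5 * t))) t ht).symm) measurableSet_Ioi)
  rw [setIntegral_congr_fun measurableSet_Ioi (e2 f),
    setIntegral_congr_fun measurableSet_Ioi
      (e2 (fun t => M * z ^ 5 * Real.exp (-(z ^ 5 * t)))), u4] at c2
  refine (mul_le_mul_of_nonneg_left c2 (sq_nonneg μ)).trans (le_of_eq ?_)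
  rw [hz]
  field_simp

theorem scb_beta (hGM : ST_GM5) : Real.Gamma (3 / 5) / Real.Gamma (4 / 5) ^ 2 ≤ 1109 / 1000 := by
  obtain ⟨q1, q2, q3, q4, q5, q6⟩ := hGM
  have p45 : 0 < Real.Gamma (4 / 5) := Real.Gamma_pos_of_pos (by norm_num)
  have p35 : 0 < Real.Gamma (3 / 5) := Real.Gamma_pos_of_pos (by norm_num)
  rw [div_le_iff₀ (by positivity)]
  have h1 : Real.Gamma (3 / 5) * (1043 / 1000 * Real.Gamma (6 / 5) ^ 2) ≤ 13214 / 10000 := by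
    calc Real.Gamma (3 / 5) * (1043 / 1000 * Real.Gamma (6 / 5) ^ 2)
        ≤ Real.Gamma (3 / 5) * Real.Gamma (7 / 5) := mul_le_mul_of_nonneg_left q1 p35.le
      _ ≤ 13214 / 10000 := by rw [mul_comm]; exact q6
  have h2 : (10689 / 10000) ^ 2 ≤ (Real.Gamma (6 / 5) * Real.Gamma (4 / 5)) ^ 2 :=
    pow_le_pow_left₀ (by norm_num) q3 2
  have h3 : Real.Gamma (3 / 5) * (1043 / 1000) * (Real.Gamma (6 / 5) * Real.Gamma (4 / 5)) ^ 2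
      ≤ 13214 / 10000 * Real.Gamma (4 / 5) ^ 2 := by
    calc Real.Gamma (3 / 5) * (1043 / 1000) * (Real.Gamma (6 / 5) * Real.Gamma (4 / 5)) ^ 2
        = Real.Gamma (3 / 5) * (1043 / 1000 * Real.Gamma (6 / 5) ^ 2)
          * Real.Gamma (4 / 5) ^ 2 := by ring
      _ ≤ _ := mul_le_mul_of_nonneg_right h1 (sq_nonneg _)
  have h4 : Real.Gamma (3 / 5) * (1043 / 1000) * (10689 / 10000) ^ 2
      ≤ 13214 / 10000 * Real.Gamma (4 / 5) ^ 2 :=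
    (mul_le_mul_of_nonneg_left h2 (by positivity)).trans h3
  have h5 := sq_nonneg (Real.Gamma (4 / 5))
  generalize Real.Gamma (4 / 5) ^ 2 = y at h4 h5 ⊢
  generalize Real.Gamma (3 / 5) = x at h4 ⊢
  nlinarith

theorem scb_cv {μ : ℝ} (hμ0 : 0 < μ) :
    ConvexOn ℝ (Set.Ioi (0 : ℝ)) (fun y : ℝ => (y / μ + μ / y - 2) ^ 2) := by
  have h1 : ConvexOn ℝ (Set.Ioi (0 : ℝ)) (fun y : ℝ => y / μ + μ / y - 2) := by
    refine ⟨convex_Ioi 0, fun x hx y hy c d hc hd hcd => ?_⟩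
    have h2 := scb_inv.2 hx hy hc hd hcd
    simp only [smul_eq_mul] at h2 ⊢
    have h3 := mul_le_mul_of_nonneg_left h2 hμ0.le
    have e3 : (c * x + d * y) / μ = c * (x / μ) + d * (y / μ) := by ring
    have e4 : μ / (c * x + d * y) = μ * (c * x + d * y)⁻¹ := rfl
    have e5 : c * (x / μ + μ / x - 2) + d * (y / μ + μ / y - 2)
        = c * (x / μ) + d * (y / μ) + μ * (c * x⁻¹ + d * y⁻¹) - 2 * (c + d) := by ring
    rw [e3, e4, e5, hcd]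
    linarith
  have h2 : ∀ ⦃y : ℝ⦄, y ∈ Set.Ioi (0 : ℝ) → 0 ≤ y / μ + μ / y - 2 := by
    intro y hy
    have hy' : (0 : ℝ) < y := hy
    have : y / μ + μ / y - 2 = (y - μ) ^ 2 / (μ * y) := by
      field_simp
      ring
    rw [this]
    positivity
  exact h1.pow h2 2

theorem scb_c3 (hCPE : ST_CPE) {f : ℝ → ℝ} {M μ k : ℝ} (hf : LC f M) (hμ0 : 0 < μ)
    (hk0 : 0 < k)
    (ha : ∫ t in Set.Ioi (0 : ℝ), t ^ (1 / 5 : ℝ) * f t = M * (k * μ)) :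
    ∫ t in Set.Ioi (0 : ℝ), (t ^ (1 / 5 : ℝ) / μ + μ / t ^ (1 / 5 : ℝ) - 2) ^ 2 * f t
      ≤ M * (Real.Gamma (7 / 5) / Real.Gamma (6 / 5) ^ 2 * k ^ 2
          + Real.Gamma (3 / 5) * Real.Gamma (6 / 5) ^ 2 / k ^ 2 + 6 - 4 * k
          - 4 * (Real.Gamma (6 / 5) * Real.Gamma (4 / 5)) / k) := by
  have p65 : 0 < Real.Gamma (6 / 5) := Real.Gamma_pos_of_pos (by norm_num)
  obtain ⟨z, hz⟩ : ∃ z : ℝ, z = Real.Gamma (6 / 5) / (k * μ) := ⟨_, rfl⟩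
  have hz0 : 0 < z := by rw [hz]; positivity
  obtain ⟨u1, u2, u3, u4, u0⟩ := scb_u (M := M) hz0
  have i1 := scb_int hf (q := 1 / 5) (by norm_num)
  have hl0 : 0 < z ^ 5 := pow_pos hz0 5
  have hg := fun (q : ℝ) (hq : -1 < q) => (scb_ei (M * z ^ 5) (z ^ 5) q hl0 hq).1
  have hzz : z⁻¹ * Real.Gamma (6 / 5) = k * μ := by rw [hz]; field_simp
  have F1 := scb_five (g := f) (fun q hq => scb_int hf hq) hμ0
  have F2 := scb_five (g := fun t => M * z ^ 5 * Real.exp (-(z ^ 5 * t))) hg hμ0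
  have c3 := hCPE f M (z ^ 5) (fun t => t ^ (1 / 5 : ℝ)) (fun y => (y / μ + μ / y - 2) ^ 2)
    hf hl0 (fun t ht => Real.rpow_pos_of_pos ht _) (Or.inl scb_mono) i1
    (hg (1 / 5) (by norm_num))
    (by rw [ha, u1, mul_assoc, hzz]) (scb_cv hμ0) F1.1 F2.1
  rw [F2.2, u3, u4, u0, u1, u2] at c3
  refine c3.trans (le_of_eq ?_)
  rw [hz]
  clear c3 F1 F2 u1 u2 u3 u4 u0 hg hzz i1 hz0 ha hl0 hz
  field_simp

theorem scb_fin1 {k M : ℝ} (hM : 0 < M) (hk3 : k ≤ 1034 / 1000) : k * M ≤ 26 / 25 * M :=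
  mul_le_mul_of_nonneg_right (by linarith) hM.le

theorem scb_fin3 {k M : ℝ} (hM : 0 < M) (hk2 : k ^ 2 ≤ 1069 / 1000) :
    M * (1109 / 1000 * k ^ 2) ≤ 6 / 5 * M := by
  rw [mul_comm M]
  exact mul_le_mul_of_nonneg_right (by linarith) hM.le

theorem scb_fin4 {k M : ℝ} (hM : 0 < M) (hk1 : 1 ≤ k) (hk3 : k ≤ 1034 / 1000) :
    M * (1109 / 1000 * k ^ 2) - 2 * k * M + M ≤ 13 / 100 * M := by
  have h1 : 1109 / 1000 * k ^ 2 - 2 * k + 1 ≤ 13 / 100 := by nlinarith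
  have h2 := mul_le_mul_of_nonneg_right h1 hM.le
  have h3 : M * (1109 / 1000 * k ^ 2) - 2 * k * M + M = (1109 / 1000 * k ^ 2 - 2 * k + 1) * M := by
    ring
  rw [h3]
  exact h2

/-- Existence of the scale. -/
theorem scb_ex {f : ℝ → ℝ} {M : ℝ} (hf : LC f M) : ∃ μ k : ℝ, 0 < μ ∧ 0 < k ∧
    ∫ t in Set.Ioi (0 : ℝ), t ^ (1 / 5 : ℝ) * f t = M * (k * μ) ∧
    ∫ t in Set.Ioi (0 : ℝ), t ^ (-(1 / 5) : ℝ) * f t = M * (k / μ) := by
  have hM := hf.mp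
  have i1 := scb_int hf (q := 1 / 5) (by norm_num)
  have i2 := scb_int hf (q := -(1 / 5)) (by norm_num)
  have w1 := Pool.Agent.Helper63.GH.int_pos f hf.ps (1 / 5) i1
  have w2 := Pool.Agent.Helper63.GH.int_pos f hf.ps (-(1 / 5)) i2
  obtain ⟨a, ha0, ha⟩ : ∃ a : ℝ, 0 < a ∧ ∫ t in Set.Ioi (0 : ℝ), t ^ (1 / 5 : ℝ) * f t
      = M * a ^ 2 := by
    refine ⟨Real.sqrt ((∫ t in Set.Ioi (0 : ℝ), t ^ (1 / 5 : ℝ) * f t) / M),
      Real.sqrt_pos.2 (div_pos w1 hM), ?_⟩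
    rw [Real.sq_sqrt (div_pos w1 hM).le]
    field_simp
  obtain ⟨b, hb0, hb⟩ : ∃ b : ℝ, 0 < b ∧ ∫ t in Set.Ioi (0 : ℝ), t ^ (-(1 / 5) : ℝ) * f t
      = M * b ^ 2 := by
    refine ⟨Real.sqrt ((∫ t in Set.Ioi (0 : ℝ), t ^ (-(1 / 5) : ℝ) * f t) / M),
      Real.sqrt_pos.2 (div_pos w2 hM), ?_⟩
    rw [Real.sq_sqrt (div_pos w2 hM).le]
    field_simp
  refine ⟨a / b, a * b, div_pos ha0 hb0, mul_pos ha0 hb0, ?_, ?_⟩
  · rw [ha]
    congr 1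
    field_simp
  · rw [hb]
    congr 1
    field_simp

theorem scb_f1 {μ : ℝ} (hμ0 : 0 < μ) (t : ℝ) (ht : t ∈ Set.Ioi (0 : ℝ)) :
    (t / μ ^ 5) ^ (1 / 5 : ℝ) = t ^ (1 / 5 : ℝ) / μ := by
  rw [Real.div_rpow (le_of_lt ht) (by positivity), (scb_pow hμ0).1]

theorem scb_f2 {μ : ℝ} (hμ0 : 0 < μ) (t : ℝ) (ht : t ∈ Set.Ioi (0 : ℝ)) :
    (t / μ ^ 5) ^ (-(1 / 5) : ℝ) = μ / t ^ (1 / 5 : ℝ) := by
  rw [Real.div_rpow (le_of_lt ht) (by positivity), (scb_pow hμ0).2.2.1,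
    Real.rpow_neg (le_of_lt ht)]
  have : 0 < t ^ (1 / 5 : ℝ) := Real.rpow_pos_of_pos ht _
  field_simp

theorem scb_g1 (μ t : ℝ) (ht : t ∈ Set.Ioi (0 : ℝ)) :
    μ / t ^ (1 / 5 : ℝ) = μ * t ^ (-(1 / 5) : ℝ) := by
  rw [Real.rpow_neg (le_of_lt ht)]
  rfl

theorem scb_b1 {f : ℝ → ℝ} {M μ k : ℝ} (hM : 0 < M) (hμ0 : 0 < μ)
    (ha : ∫ t in Set.Ioi (0 : ℝ), t ^ (1 / 5 : ℝ) * f t = M * (k * μ))
    (hk3 : k ≤ 1034 / 1000) :
    ∫ t in Set.Ioi (0 : ℝ), (t / μ ^ 5) ^ (1 / 5 : ℝ) * f t ≤ 26 / 25 * M := by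
  have e7 : ∀ t ∈ Set.Ioi (0 : ℝ), (t / μ ^ 5) ^ (1 / 5 : ℝ) * f t
      = 1 / μ * (t ^ (1 / 5 : ℝ) * f t) := by
    intro t ht
    rw [scb_f1 hμ0 t ht]; ring
  rw [setIntegral_congr_fun measurableSet_Ioi e7, integral_const_mul, ha]
  have : 1 / μ * (M * (k * μ)) = k * M := by field_simp
  rw [this]
  exact scb_fin1 hM hk3

theorem scb_b2 {f : ℝ → ℝ} {M μ k : ℝ} (hM : 0 < M) (hμ0 : 0 < μ)
    (hb : ∫ t in Set.Ioi (0 : ℝ), t ^ (-(1 / 5) : ℝ) * f t = M * (k / μ))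
    (hk3 : k ≤ 1034 / 1000) :
    ∫ t in Set.Ioi (0 : ℝ), (t / μ ^ 5) ^ (-(1 / 5) : ℝ) * f t ≤ 26 / 25 * M := by
  have e7 : ∀ t ∈ Set.Ioi (0 : ℝ), (t / μ ^ 5) ^ (-(1 / 5) : ℝ) * f t
      = μ * (t ^ (-(1 / 5) : ℝ) * f t) := by
    intro t ht
    rw [scb_f2 hμ0 t ht, scb_g1 μ t ht]; ring
  rw [setIntegral_congr_fun measurableSet_Ioi e7, integral_const_mul, hb]
  have : μ * (M * (k / μ)) = k * M := by field_simp
  rw [this]
  exact scb_fin1 hM hk3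

theorem scb_b3 {f : ℝ → ℝ} {M μ k : ℝ} (hM : 0 < M) (hμ0 : 0 < μ)
    (hN : μ ^ 2 * ∫ t in Set.Ioi (0 : ℝ), t ^ (-(2 / 5) : ℝ) * f t
      ≤ M * (1109 / 1000 * k ^ 2)) (hk2 : k ^ 2 ≤ 1069 / 1000) :
    ∫ t in Set.Ioi (0 : ℝ), ((t / μ ^ 5) ^ (-(1 / 5) : ℝ)) ^ 2 * f t ≤ 6 / 5 * M := by
  have e7 : ∀ t ∈ Set.Ioi (0 : ℝ), ((t / μ ^ 5) ^ (-(1 / 5) : ℝ)) ^ 2 * f t
      = μ ^ 2 * (t ^ (-(2 / 5) : ℝ) * f t) := by
    intro t ht
    rw [scb_f2 hμ0 t ht, scb_g1 μ t ht, mul_pow, scb_g2 t ht]; ring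
  rw [setIntegral_congr_fun measurableSet_Ioi e7, integral_const_mul]
  exact hN.trans (scb_fin3 hM hk2)

theorem scb_b4 {f : ℝ → ℝ} {M μ k : ℝ} (hf : LC f M) (hμ0 : 0 < μ)
    (hb : ∫ t in Set.Ioi (0 : ℝ), t ^ (-(1 / 5) : ℝ) * f t = M * (k / μ))
    (hN : μ ^ 2 * ∫ t in Set.Ioi (0 : ℝ), t ^ (-(2 / 5) : ℝ) * f t
      ≤ M * (1109 / 1000 * k ^ 2)) (hk1 : 1 ≤ k) (hk3 : k ≤ 1034 / 1000) :
    ∫ t in Set.Ioi (0 : ℝ), ((t / μ ^ 5) ^ (-(1 / 5) : ℝ) - 1) ^ 2 * f t ≤ 13 / 100 * M := by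
  have i2 := scb_int hf (q := -(1 / 5)) (by norm_num)
  have i3 := scb_int hf (q := -(2 / 5)) (by norm_num)
  have i0 := scb_int hf (q := 0) (by norm_num)
  have e7 : ∀ t ∈ Set.Ioi (0 : ℝ), ((t / μ ^ 5) ^ (-(1 / 5) : ℝ) - 1) ^ 2 * f t
      = (μ ^ 2 * (t ^ (-(2 / 5) : ℝ) * f t) - 2 * μ * (t ^ (-(1 / 5) : ℝ) * f t))
        + t ^ (0 : ℝ) * f t := by
    intro t ht
    rw [scb_f2 hμ0 t ht, scb_g1 μ t ht, ← scb_g2 t ht, Real.rpow_zero]; ring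
  have s12 : IntegrableOn (fun t => μ ^ 2 * (t ^ (-(2 / 5) : ℝ) * f t)
      - 2 * μ * (t ^ (-(1 / 5) : ℝ) * f t)) (Set.Ioi (0 : ℝ)) :=
    (i3.const_mul _).sub (i2.const_mul _)
  rw [setIntegral_congr_fun measurableSet_Ioi e7, integral_add s12 i0,
    integral_sub (i3.const_mul _) (i2.const_mul _), integral_const_mul, integral_const_mul,
    hb, scb_m0 hf]
  have h1 : 2 * μ * (M * (k / μ)) = 2 * k * M := by field_simp
  rw [h1]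
  have h6 := scb_fin4 hf.mp hk1 hk3
  linarith

theorem scb_b5 {f : ℝ → ℝ} {μ B : ℝ} (hμ0 : 0 < μ)
    (h : ∫ t in Set.Ioi (0 : ℝ), (t ^ (1 / 5 : ℝ) / μ + μ / t ^ (1 / 5 : ℝ) - 2) ^ 2 * f t
      ≤ B) :
    ∫ t in Set.Ioi (0 : ℝ),
      ((t / μ ^ 5) ^ (1 / 5 : ℝ) + (t / μ ^ 5) ^ (-(1 / 5) : ℝ) - 2) ^ 2 * f t ≤ B := by
  have e7 : ∀ t ∈ Set.Ioi (0 : ℝ),
      ((t / μ ^ 5) ^ (1 / 5 : ℝ) + (t / μ ^ 5) ^ (-(1 / 5) : ℝ) - 2) ^ 2 * f t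
      = (t ^ (1 / 5 : ℝ) / μ + μ / t ^ (1 / 5 : ℝ) - 2) ^ 2 * f t := by
    intro t ht
    rw [scb_f1 hμ0 t ht, scb_f2 hμ0 t ht]
  rw [setIntegral_congr_fun measurableSet_Ioi e7]
  exact h

theorem scb_p (hGM : ST_GM5) {k : ℝ} (hk1 : 1 ≤ k) (hk2 : k ^ 2 ≤ 1069 / 1000) :
    Real.Gamma (7 / 5) / Real.Gamma (6 / 5) ^ 2 * k ^ 2
          + Real.Gamma (3 / 5) * Real.Gamma (6 / 5) ^ 2 / k ^ 2 + 6 - 4 * k
          - 4 * (Real.Gamma (6 / 5) * Real.Gamma (4 / 5)) / k ≤ 1 / 20 := by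
  obtain ⟨q1, q2, q3, q4, q5, q6⟩ := hGM
  have p65 : 0 < Real.Gamma (6 / 5) := Real.Gamma_pos_of_pos (by norm_num)
  refine scb_poly hk1 hk2 (by rw [le_div_iff₀ (by positivity)]; exact q1)
    (by rw [div_le_iff₀ (by positivity)]; exact q2) q3 ?_
  have : Real.Gamma (3 / 5) * Real.Gamma (6 / 5) ^ 2
      * (Real.Gamma (7 / 5) / Real.Gamma (6 / 5) ^ 2)
      = Real.Gamma (7 / 5) * Real.Gamma (3 / 5) := by field_simp
  rw [this]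
  exact q6

theorem st_SCB (hCPE : ST_CPE) (hGM : ST_GM5) : ST_SCB := by
  intro f M hf
  obtain ⟨μ, k, hμ0, hk0, ha, hb⟩ := scb_ex hf
  have hk1 := scb_k1 hf hμ0 ha hb
  have hk2 : k ^ 2 ≤ 1069 / 1000 := by
    have h1 := scb_c1 hCPE hf hμ0 hk0 ha hb
    have h2 := hGM.2.2.2.1
    linarith
  have hk3 : k ≤ 1034 / 1000 := by nlinarith
  have hN := (scb_c2 hCPE hf hμ0 hk0 hb).trans (mul_le_mul_of_nonneg_left
    (mul_le_mul_of_nonneg_right (scb_beta hGM) (sq_nonneg k)) hf.mp.le)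
  have h5 := (scb_c3 hCPE hf hμ0 hk0 ha).trans
    (mul_le_mul_of_nonneg_left (scb_p hGM hk1 hk2) hf.mp.le)
  rw [mul_comm M (1 / 20 : ℝ)] at h5
  exact ⟨μ ^ 5, pow_pos hμ0 5, scb_b1 hf.mp hμ0 ha hk3, scb_b2 hf.mp hμ0 hb hk3,
    scb_b3 hf.mp hμ0 hN hk2, scb_b4 hf hμ0 hb hN hk1 hk3, scb_b5 hμ0 h5⟩

end Pool.Agent.Helper44.GJ
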