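import Pool.Agent.Helper44.GH.All
import Pool.Agent.Helper2.GJ.GM
import Pool.Agent.Helper20.GJ.CO
import Pool.Agent.Helper26.GJ.GD
import Pool.Agent.Helper35.GJ.BLA
import Pool.Agent.Helper4.GJ.HVR
import Pool.Agent.Helper44.GJ.BLB
import Pool.Agent.Helper44.GJ.GCX
import Pool.Agent.Helper44.GJ.IN1
import Pool.Agent.Helper44.GJ.LI
import Pool.Agent.Helper44.GJ.NRM
import Pool.Agent.Helper44.GJ.SCB
import Pool.Agent.Helper49.GJ.GB1
import Pool.Agent.Helper51.GJ.BLC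
import Pool.Agent.Helper51.GJ.BLU
import Pool.Agent.Helper51.GJ.CTN
import Pool.Agent.Helper51.GJ.DER
import Pool.Agent.Helper51.GJ.GB3
import Pool.Agent.Helper51.GJ.IBP
import Pool.Agent.Helper51.GJ.IN0
import Pool.Agent.Helper51.GJ.KE
import Pool.Agent.Helper51.GJ.LI0
import Pool.Agent.Helper51.GJ.ROW
import Pool.Agent.Helper51.GJ.SE1
import Pool.Agent.Helper51.GJ.SE3
import Pool.Agent.Helper6.GJ.CR
import Pool.Agent.Helper6.GJ.GP
import Pool.Agent.Helper63.GJ.BPP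
import Pool.Agent.Helper69.GJ.FP
import Pool.Agent.Helper69.GJ.MAR
import Pool.Agent.Helper69.GJ.MN
import Pool.Agent.Helper69.GJ.SE4
import Pool.Agent.Helper7.GJ.GB2
import Pool.Agent.Helper78.GJ.DFM
import Pool.Agent.Helper79.GJ.BLW
import Pool.Agent.Helper8.GJ.CPE
import Pool.Agent.Helper8.GJ.SE2
import Pool.Agent.Helper81.GJ.GM5
import Pool.Agent.Helper91.GJ.GRW

/-! Assembly of the face inequality for `2 < p ≤ 11/5`. -/

namespace Pool.Agent.Helper44.GJ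

theorem all_MN : ST_MN := by
  have hMAR : ST_MAR := st_MAR st_GRW
  have hSCB : ST_SCB := st_SCB st_CPE st_GM5
  have hGD : ST_GD := Pool.Agent.Helper26.GJ.st_GD
  have hIN0 : ST_IN0 := st_IN0 st_GRW
  have hIN1 := st_IN1 hMAR hIN0
  have hGCX := st_GCX hGD
  have hBLB := st_BLB st_BLA hGD hGCX hIN0 hIN1
  have hBLC := st_BLC hBLB hIN0 hIN1 hGD st_GRW
  have hIBP := st_IBP hGD hIN0
  have hCTN := st_CTN st_GRW hGD
  have hDER := st_DER st_GRW hGD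
  have hBLU := st_BLU hBLC hIN1 hIN0
  have hBLW := st_BLW hIN0 hIN1 hBLC
  have hROW := st_ROW hSCB hMAR hIN0 hIN1
  have hSE1 := st_SE1 hBLU hIBP hGD hIN0 hIN1
  have hSE2 := st_SE2 hBLW hIN1
  have hSE3 := st_SE3 hBLU hSE1 hSE2 hIN0 hIN1
  have hSE4 := st_SE4 hGD hIN0 hIN1 hSE3
  have hGB1 := st_GB1 hBLU hGD hIN1
  have hGB2 := st_GB2 hBLW hGD hIN1
  have hGB3 := st_GB3 hGB1 hSE1 hIN0 hGD
  have hHVR := st_HVR hBLU hSE1 hSE2 hSE4 hGB2 hGD hIN0 hIN1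
  have hDFM := st_DFM hIBP hGD hIN0
  have hLI0 := st_LI0 hHVR hGB3 hDFM hIN0
  have hNRM := st_NRM hIN0 hGD
  have hLI := st_LI hLI0 hNRM hROW Pool.Agent.Helper44.GH.st_ABN
  have hBPP := st_BPP hIBP hGD hIN0
  have hCR := st_CR hBPP hIN0
  have hGP := st_GP hDER hCTN hBPP
  have hGM := st_GM hDER hCTN hBPP hCR hIN0
  have hCO := st_CO hCTN hIN0
  have hKE := st_KE hLI Pool.Agent.Helper44.GH.all_MPL hGP hGM hCO hCR hBPP hNRM
  have hFP := st_FP hKE Pool.Agent.Helper44.GH.all_CVB hIN0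
  exact st_MN (Pool.Agent.Helper44.GF.st_HFACE
    (Pool.Agent.Helper44.GF.st_HBALL Pool.Agent.Helper44.GF.st_ISOD)) hFP

end Pool.Agent.Helper44.GJ
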