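import Pool.Agent.Helper44.GH.Stmts

/-!
# Face inequality for polyhedral cycles in `ℓ^p_n`, `2 < p ≤ 11/5`, all dimensions (MP_d210aa_gt)

Definitions.
-/

open Finset MeasureTheory Filter Topology Matrix
open scoped ENNReal ContDiff

namespace Pool.Agent.Helper44.GJ

/-! ## A. The function `|t| ^ p` -/

/-- The derivative of `|t| ^ p`. -/
noncomputable def g1 (p t : ℝ) : ℝ := p * |t| ^ (p - 2) * t

/-- The second derivative of `|t| ^ p`. -/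
noncomputable def g2 (p t : ℝ) : ℝ := p * (p - 1) * |t| ^ (p - 2)

/-! ## B. The measure `exp (-∑ |(V x)_i| ^ p) dx` -/

section Model

variable {n m : ℕ}

/-- The potential `∑ |(V x)_i| ^ p`. -/
noncomputable def Ph (p : ℝ) (V : Matrix (Fin n) (Fin m) ℝ) (x : Fin m → ℝ) : ℝ :=
  ∑ i, |V.mulVec x i| ^ p

/-- The density. -/
noncomputable def ee (p : ℝ) (V : Matrix (Fin n) (Fin m) ℝ) (x : Fin m → ℝ) : ℝ :=
  Real.exp (-Ph p V x)

/-- The density with Gaussian weights. -/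
noncomputable def es (p : ℝ) (V : Matrix (Fin n) (Fin m) ℝ) (σ : Fin n → ℝ)
    (x : Fin m → ℝ) : ℝ := Real.exp (-∑ i, σ i * V.mulVec x i ^ 2) * ee p V x

/-- The total mass. -/
noncomputable def Mp (p : ℝ) (V : Matrix (Fin n) (Fin m) ℝ) : ℝ := ∫ x : Fin m → ℝ, ee p V x

/-- The (unnormalised) expectation. -/
noncomputable def IE (p : ℝ) (V : Matrix (Fin n) (Fin m) ℝ) (F : (Fin m → ℝ) → ℝ) : ℝ :=
  ∫ x : Fin m → ℝ, F x * ee p V x

/-- The vector `∑ g1 (V x)_i z_i`. -/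
noncomputable def gz (p : ℝ) (V Z : Matrix (Fin n) (Fin m) ℝ) (x : Fin m → ℝ) (b : Fin m) : ℝ :=
  ∑ i, g1 p (V.mulVec x i) * Z i b

/-- The function `∑ g1 (V x)_i (Z x)_i`. -/
noncomputable def hz (p : ℝ) (V Z : Matrix (Fin n) (Fin m) ℝ) (x : Fin m → ℝ) : ℝ :=
  ∑ i, g1 p (V.mulVec x i) * Z.mulVec x i

/-- The first derivative of `Mp`. -/
noncomputable def M1 (p : ℝ) (V Z : Matrix (Fin n) (Fin m) ℝ) : ℝ := -IE p V (hz p V Z)

/-- The second derivative of `Mp`. -/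
noncomputable def M2 (p : ℝ) (V Z : Matrix (Fin n) (Fin m) ℝ) : ℝ :=
  IE p V (fun x => hz p V Z x ^ 2 - ∑ i, g2 p (V.mulVec x i) * (Z.mulVec x i) ^ 2)

/-- The projection. -/
noncomputable def Bp (p : ℝ) (V : Matrix (Fin n) (Fin m) ℝ) : Matrix (Fin m) (Fin n) ℝ :=
  Matrix.of fun a i => IE p V (fun x => x a * g1 p (V.mulVec x i)) / Mp p V

/-- The normalised weight `g2 ((V x)_j) / c_j`. -/
noncomputable def Yj (p : ℝ) (V : Matrix (Fin n) (Fin m) ℝ) (c : Fin n → ℝ) (j : Fin n)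
    (x : Fin m → ℝ) : ℝ := g2 p (V.mulVec x j) / c j

/-- The bounds on the normalised weights. -/
structure RW (p : ℝ) (V : Matrix (Fin n) (Fin m) ℝ) (c : Fin n → ℝ) : Prop where
  c0 : ∀ j, 0 < c j
  r1 : ∀ j, V j ≠ 0 → IE p V (fun x => Yj p V c j x) ≤ 26 / 25 * Mp p V
  r2 : ∀ j, V j ≠ 0 → IE p V (fun x => (Yj p V c j x)⁻¹) ≤ 26 / 25 * Mp p V
  r3 : ∀ j, V j ≠ 0 → IE p V (fun x => (Yj p V c j x)⁻¹ ^ 2) ≤ 6 / 5 * Mp p V
  r4 : ∀ j, V j ≠ 0 → IE p V (fun x => Yj p V c j x + (Yj p V c j x)⁻¹ - 2) ≤ 2 / 25 * Mp p V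
  r5 : ∀ j, V j ≠ 0 → IE p V (fun x => ((Yj p V c j x)⁻¹ - 1) ^ 2) ≤ 13 / 100 * Mp p V
  r6 : ∀ j, V j ≠ 0 →
    IE p V (fun x => (Yj p V c j x + (Yj p V c j x)⁻¹ - 2) ^ 2) ≤ 1 / 20 * Mp p V

/-- The functions `F` with gradient `∑ w_i v_i`. -/
structure Rg (V : Matrix (Fin n) (Fin m) ℝ) (F : (Fin m → ℝ) → ℝ)
    (w : Fin n → (Fin m → ℝ) → ℝ) : Prop where
  Fc : Continuous F
  wc : ∀ i, Continuous (w i)
  gr : ∃ (C : ℝ) (k : ℕ), ∀ x, |F x| ≤ C * (1 + ‖x‖) ^ k ∧ ∀ i, |w i x| ≤ C * (1 + ‖x‖) ^ k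
  dv : ∀ x h : Fin m → ℝ,
    HasDerivAt (fun r : ℝ => F (x + r • h)) (∑ i, w i x * V.mulVec h i) 0

end Model

/-! ## C. One variable -/

/-- The function `f` is positive, bounded and log-concave on `(0, ∞)`, with mass `M`. -/
structure LC (f : ℝ → ℝ) (M : ℝ) : Prop where
  ms : Measurable f
  ps : ∀ t, 0 < t → 0 < f t
  bd : ∃ C : ℝ, ∀ t, 0 < t → f t ≤ C
  lc : ∀ t u a b : ℝ, 0 < t → 0 < u → 0 < a → 0 < b → a + b = 1 →
    f t ^ a * f u ^ b ≤ f (a * t + b * u)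
  it : IntegrableOn f (Set.Ioi 0)
  ma : ∫ t in Set.Ioi (0 : ℝ), f t = M
  mp : 0 < M

/-! ## D. Critical points -/

section Crit

variable {n m : ℕ}

/-- The function `Mp` on the affine space `V + KB B`. -/
noncomputable def GB (B : Matrix (Fin m) (Fin n) ℝ) (V : Matrix (Fin n) (Fin m) ℝ) (p : ℝ)
    (w : Pool.Agent.Helper44.GH.KB B) : ℝ := Mp p (V + Matrix.of (w : Fin n → Fin m → ℝ))

end Crit

end Pool.Agent.Helper44.GJ
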