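import Pool.Agent.Helper44.GJ.Defs

/-!
# Face inequality for polyhedral cycles in `ℓ^p_n`, `2 < p ≤ 11/5`, all dimensions (MP_d210aa_gt)

The statements of all modules.
-/

open Finset MeasureTheory Filter Topology Matrix
open scoped ENNReal ContDiff

namespace Pool.Agent.Helper44.GJ

open Pool.Agent.Helper44.GF Pool.Agent.Helper44.GN Pool.Agent.Helper44.GH

/-! ## A. The function `|t| ^ p` -/

/-- Derivatives and elementary bounds. -/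
def ST_GD : Prop :=
  ∀ p : ℝ, 2 < p → p ≤ 3 →
    (∀ t, HasDerivAt (fun t : ℝ => |t| ^ p) (g1 p t) t) ∧
    (∀ t, HasDerivAt (g1 p) (g2 p t) t) ∧
    Continuous (g1 p) ∧ Continuous (g2 p) ∧ (∀ t, 0 ≤ g2 p t) ∧ (∀ t, g1 p (-t) = -g1 p t) ∧
    (∀ t, |g1 p t| ≤ 3 * (1 + |t|) ^ 2) ∧ (∀ t, g2 p t ≤ 6 * (1 + |t|)) ∧
    g1 p 0 = 0 ∧ g2 p 0 = 0

/-- Second differences. -/
def ST_GCX : Prop :=
  ∀ p : ℝ, 2 < p → p ≤ 3 → ∀ t k : ℝ,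
    0 ≤ |t + k| ^ p + |t - k| ^ p - 2 * |t| ^ p ∧
    g2 p t * k ^ 2 - 6 * |k| ^ p ≤ |t + k| ^ p + |t - k| ^ p - 2 * |t| ^ p

/-! ## B. Growth and integrability -/

/-- Growth of the potential, uniformly near an injective matrix. -/
def ST_GRW : Prop :=
  ∀ (n m : ℕ) (V : Matrix (Fin n) (Fin m) ℝ), Function.Injective V.mulVec →
    ∃ r c : ℝ, 0 < r ∧ 0 < c ∧ ∀ W : Matrix (Fin n) (Fin m) ℝ,
      (∀ i a, |W i a - V i a| < r) → ∀ x : Fin m → ℝ,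
      c * ‖x‖ ≤ ‖W.mulVec x‖ ∧ ∀ p : ℝ, 0 < p → (c * ‖x‖) ^ p ≤ Ph p W x

/-- Integrability of functions of polynomial growth. -/
def ST_IN0 : Prop :=
  ∀ (n m : ℕ) (p : ℝ) (V : Matrix (Fin n) (Fin m) ℝ), 1 ≤ p → Function.Injective V.mulVec →
    0 < Mp p V ∧ Continuous (ee p V) ∧
    ∀ (F : (Fin m → ℝ) → ℝ) (C : ℝ) (k : ℕ), AEStronglyMeasurable F volume →
      (∀ x, |F x| ≤ C * (1 + ‖x‖) ^ k) → Integrable (fun x => F x * ee p V x)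

/-- The marginals. -/
def ST_MAR : Prop :=
  ∀ (n m : ℕ) (p : ℝ) (V : Matrix (Fin n) (Fin m) ℝ), 2 < p → p ≤ 3 →
    Function.Injective V.mulVec → ∀ j, V j ≠ 0 → ∃ f : ℝ → ℝ, LC f (Mp p V) ∧
    ∀ φ : ℝ → ℝ≥0∞, Measurable φ →
      ∫⁻ x : Fin m → ℝ, φ |V.mulVec x j| * ENNReal.ofReal (ee p V x)
        = ∫⁻ t in Set.Ioi (0 : ℝ), φ t * ENNReal.ofReal (f t)

/-- Integrability of singular functions. -/
def ST_IN1 : Prop :=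
  ∀ (n m : ℕ) (p : ℝ) (V : Matrix (Fin n) (Fin m) ℝ), 2 < p → p ≤ 3 →
    Function.Injective V.mulVec → ∀ i j, V i ≠ 0 → V j ≠ 0 → ∀ a b : ℝ, 0 ≤ a → 0 ≤ b →
    a + b < 1 → ∀ (F : (Fin m → ℝ) → ℝ) (C : ℝ) (k : ℕ), AEStronglyMeasurable F volume →
      (∀ x, |F x| ≤ C * (1 + ‖x‖) ^ k) →
      Integrable (fun x => |V.mulVec x i| ^ (-a) * |V.mulVec x j| ^ (-b) * F x * ee p V x)

/-- Integration by parts. -/
def ST_IBP : Prop :=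
  ∀ (n m : ℕ) (p : ℝ) (V : Matrix (Fin n) (Fin m) ℝ), 2 < p → p ≤ 3 →
    Function.Injective V.mulVec → ∀ (h : Fin m → ℝ) (F F' : (Fin m → ℝ) → ℝ) (C : ℝ) (k : ℕ),
      (∀ x, HasDerivAt (fun r : ℝ => F (x + r • h)) (F' x) 0) → Continuous F → Continuous F' →
      (∀ x, |F x| ≤ C * (1 + ‖x‖) ^ k) → (∀ x, |F' x| ≤ C * (1 + ‖x‖) ^ k) →
      IE p V F' = IE p V (fun x => F x * ∑ i, g1 p (V.mulVec x i) * V.mulVec h i)

/-! ## C. The Brascamp-Lieb inequality -/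

/-- The Brascamp-Lieb inequality for functions with compact support. -/
def ST_BLA : Prop :=
  ∀ (n m : ℕ) (V : Matrix (Fin n) (Fin m) ℝ) (g D : Fin n → ℝ → ℝ) (c L α : ℝ)
    (f : (Fin m → ℝ) → ℝ) (w : Fin n → (Fin m → ℝ) → ℝ), Function.Injective V.mulVec →
    0 < c → 0 ≤ L → 0 < α → (∀ i, Continuous (g i)) → (∀ i, Continuous (D i)) →
    (∀ i t, c ≤ D i t) → (∀ i t, c / 4 * t ^ 2 ≤ g i t) →
    (∀ i t k, c * k ^ 2 ≤ g i (t + k) + g i (t - k) - 2 * g i t) →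
    (∀ i t k, D i t * k ^ 2 - L * |k| ^ (2 + α) ≤ g i (t + k) + g i (t - k) - 2 * g i t) →
    Continuous f → HasCompactSupport f → (∀ i, Continuous (w i)) →
    (∀ i, HasCompactSupport (w i)) →
    (∀ x h, HasDerivAt (fun r : ℝ => f (x + r • h)) (∑ i, w i x * V.mulVec h i) 0) →
    (∫ x : Fin m → ℝ, Real.exp (-∑ i, g i (V.mulVec x i)))
        * (∫ x : Fin m → ℝ, f x ^ 2 * Real.exp (-∑ i, g i (V.mulVec x i)))
      - (∫ x : Fin m → ℝ, f x * Real.exp (-∑ i, g i (V.mulVec x i))) ^ 2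
    ≤ (∫ x : Fin m → ℝ, Real.exp (-∑ i, g i (V.mulVec x i)))
        * ∫ x : Fin m → ℝ, (∑ i, w i x ^ 2 / D i (V.mulVec x i))
          * Real.exp (-∑ i, g i (V.mulVec x i))

/-- The Brascamp-Lieb inequality for `exp (-Ph - ∑ σ_i (V x)_i ^ 2)`, compact support. -/
def ST_BLB : Prop :=
  ∀ (n m : ℕ) (p : ℝ) (V : Matrix (Fin n) (Fin m) ℝ), 2 < p → p < 3 →
    Function.Injective V.mulVec → ∀ σ : Fin n → ℝ, (∀ i, 0 ≤ σ i) →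
    ∀ (f : (Fin m → ℝ) → ℝ) (w : Fin n → (Fin m → ℝ) → ℝ),
    Continuous f → HasCompactSupport f → (∀ i, Continuous (w i)) →
    (∀ i, HasCompactSupport (w i)) →
    (∀ x h, HasDerivAt (fun r : ℝ => f (x + r • h)) (∑ i, w i x * V.mulVec h i) 0) →
    (∫ x, es p V σ x) * (∫ x, f x ^ 2 * es p V σ x) - (∫ x, f x * es p V σ x) ^ 2
    ≤ (∫ x, es p V σ x) * ∫ x, (∑ i, w i x ^ 2 / g2 p (V.mulVec x i)) * es p V σ x

/-- The Brascamp-Lieb inequality for `exp (-Ph - ∑ σ_i (V x)_i ^ 2)`, polynomial growth. -/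
def ST_BLC : Prop :=
  ∀ (n m : ℕ) (p : ℝ) (V : Matrix (Fin n) (Fin m) ℝ), 2 < p → p < 3 →
    Function.Injective V.mulVec → ∀ σ : Fin n → ℝ, (∀ i, 0 ≤ σ i) →
    ∀ (F : (Fin m → ℝ) → ℝ) (w : Fin n → (Fin m → ℝ) → ℝ), Rg V F w →
    (∫ x, es p V σ x) * (∫ x, F x ^ 2 * es p V σ x) - (∫ x, F x * es p V σ x) ^ 2
    ≤ (∫ x, es p V σ x) * ∫ x, (∑ i, w i x ^ 2 / g2 p (V.mulVec x i)) * es p V σ x

/-- The Brascamp-Lieb inequality. -/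
def ST_BLU : Prop :=
  ∀ (n m : ℕ) (p : ℝ) (V : Matrix (Fin n) (Fin m) ℝ), 2 < p → p < 3 →
    Function.Injective V.mulVec → ∀ (F : (Fin m → ℝ) → ℝ) (w : Fin n → (Fin m → ℝ) → ℝ),
    Rg V F w →
    Integrable (fun x => (∑ i, w i x ^ 2 / g2 p (V.mulVec x i)) * ee p V x) ∧
    Mp p V * IE p V (fun x => F x ^ 2) - IE p V F ^ 2
      ≤ Mp p V * IE p V (fun x => ∑ i, w i x ^ 2 / g2 p (V.mulVec x i)) ∧
    ((∀ x, F (-x) = -F x) → IE p V (fun x => F x ^ 2)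
      ≤ IE p V (fun x => ∑ i, w i x ^ 2 / g2 p (V.mulVec x i)))

/-- The Brascamp-Lieb inequality with a weight. -/
def ST_BLW : Prop :=
  ∀ (n m : ℕ) (p : ℝ) (V : Matrix (Fin n) (Fin m) ℝ), 2 < p → p < 3 →
    Function.Injective V.mulVec → ∀ (F : (Fin m → ℝ) → ℝ) (w : Fin n → (Fin m → ℝ) → ℝ),
    Rg V F w → (∀ x, F (-x) = -F x) → ∀ j, V j ≠ 0 → ∀ a : ℝ, 0 < a → a + (p - 2) < 1 →
    Integrable (fun x => (|V.mulVec x j| ^ (-a)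
      * ∑ i, w i x ^ 2 / g2 p (V.mulVec x i)) * ee p V x) ∧
    IE p V (fun x => |V.mulVec x j| ^ (-a) * F x ^ 2)
      ≤ IE p V (fun x => |V.mulVec x j| ^ (-a) * ∑ i, w i x ^ 2 / g2 p (V.mulVec x i))

/-! ## D. One variable -/

/-- Comparison with an exponential density. -/
def ST_CPE : Prop :=
  ∀ (f : ℝ → ℝ) (M l : ℝ) (τ χ : ℝ → ℝ), LC f M → 0 < l → (∀ t, 0 < t → 0 < τ t) →
    (StrictMonoOn τ (Set.Ioi 0) ∨ StrictAntiOn τ (Set.Ioi 0)) →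
    IntegrableOn (fun t => τ t * f t) (Set.Ioi 0) →
    IntegrableOn (fun t => τ t * (M * l * Real.exp (-(l * t)))) (Set.Ioi 0) →
    ∫ t in Set.Ioi (0 : ℝ), τ t * f t
      = ∫ t in Set.Ioi (0 : ℝ), τ t * (M * l * Real.exp (-(l * t))) →
    ConvexOn ℝ (Set.Ioi 0) χ →
    IntegrableOn (fun t => χ (τ t) * f t) (Set.Ioi 0) →
    IntegrableOn (fun t => χ (τ t) * (M * l * Real.exp (-(l * t)))) (Set.Ioi 0) →
    ∫ t in Set.Ioi (0 : ℝ), χ (τ t) * f t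
      ≤ ∫ t in Set.Ioi (0 : ℝ), χ (τ t) * (M * l * Real.exp (-(l * t)))

/-- Values of the Gamma function. -/
def ST_GM5 : Prop :=
  1043 / 1000 * Real.Gamma (6 / 5) ^ 2 ≤ Real.Gamma (7 / 5) ∧
  Real.Gamma (7 / 5) ≤ 11 / 10 * Real.Gamma (6 / 5) ^ 2 ∧
  10689 / 10000 ≤ Real.Gamma (6 / 5) * Real.Gamma (4 / 5) ∧
  Real.Gamma (6 / 5) * Real.Gamma (4 / 5) ≤ 10690 / 10000 ∧
  13213 / 10000 ≤ Real.Gamma (7 / 5) * Real.Gamma (3 / 5) ∧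
  Real.Gamma (7 / 5) * Real.Gamma (3 / 5) ≤ 13214 / 10000

/-- The scale of a log-concave density. -/
def ST_SCB : Prop :=
  ∀ (f : ℝ → ℝ) (M : ℝ), LC f M → ∃ s : ℝ, 0 < s ∧
    ∫ t in Set.Ioi (0 : ℝ), (t / s) ^ (1 / 5 : ℝ) * f t ≤ 26 / 25 * M ∧
    ∫ t in Set.Ioi (0 : ℝ), (t / s) ^ (-(1 / 5) : ℝ) * f t ≤ 26 / 25 * M ∧
    ∫ t in Set.Ioi (0 : ℝ), ((t / s) ^ (-(1 / 5) : ℝ)) ^ 2 * f t ≤ 6 / 5 * M ∧
    ∫ t in Set.Ioi (0 : ℝ), ((t / s) ^ (-(1 / 5) : ℝ) - 1) ^ 2 * f t ≤ 13 / 100 * M ∧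
    ∫ t in Set.Ioi (0 : ℝ),
      ((t / s) ^ (1 / 5 : ℝ) + (t / s) ^ (-(1 / 5) : ℝ) - 2) ^ 2 * f t ≤ 1 / 20 * M

/-- The bounds on the weights. -/
def ST_ROW : Prop :=
  ∀ (n m : ℕ) (p : ℝ) (V : Matrix (Fin n) (Fin m) ℝ), 2 < p → p ≤ 11 / 5 →
    Function.Injective V.mulVec → ∃ c : Fin n → ℝ, RW p V c

/-! ## E. Moments of linear functions -/

/-- Second moments. -/
def ST_SE1 : Prop :=
  ∀ (n m : ℕ) (p : ℝ) (V : Matrix (Fin n) (Fin m) ℝ) (c : Fin n → ℝ), 2 < p → p ≤ 11 / 5 →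
    Function.Injective V.mulVec → RW p V c → TT V V c = 1 → ∀ v : Fin m → ℝ,
    IE p V (fun x => (v ⬝ᵥ x) ^ 2) ≤ 26 / 25 * (v ⬝ᵥ v) * Mp p V ∧
    (v ⬝ᵥ v) * Mp p V ≤ 26 / 25 * IE p V (fun x => (v ⬝ᵥ x) ^ 2)

/-- Weighted second moments. -/
def ST_SE2 : Prop :=
  ∀ (n m : ℕ) (p : ℝ) (V : Matrix (Fin n) (Fin m) ℝ) (c : Fin n → ℝ), 2 < p → p ≤ 11 / 5 →
    Function.Injective V.mulVec → RW p V c → TT V V c = 1 → ∀ j, V j ≠ 0 →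
    ∀ v : Fin m → ℝ,
    IE p V (fun x => (Yj p V c j x)⁻¹ * (v ⬝ᵥ x) ^ 2) ≤ 6 / 5 * (v ⬝ᵥ v) * Mp p V

/-- Fourth moments. -/
def ST_SE3 : Prop :=
  ∀ (n m : ℕ) (p : ℝ) (V : Matrix (Fin n) (Fin m) ℝ) (c : Fin n → ℝ), 2 < p → p ≤ 11 / 5 →
    Function.Injective V.mulVec → RW p V c → TT V V c = 1 → ∀ v : Fin m → ℝ,
    IE p V (fun x => (v ⬝ᵥ x) ^ 4) ≤ (24 / 5 + (26 / 25) ^ 2) * (v ⬝ᵥ v) ^ 2 * Mp p V

/-- The term with the fluctuations. -/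
def ST_SE4 : Prop :=
  ∀ (n m : ℕ) (p : ℝ) (V : Matrix (Fin n) (Fin m) ℝ) (c : Fin n → ℝ), 2 < p → p ≤ 11 / 5 →
    Function.Injective V.mulVec → RW p V c → TT V V c = 1 → ∀ j, V j ≠ 0 →
    ∀ v : Fin m → ℝ,
    IE p V (fun x => (Yj p V c j x + (Yj p V c j x)⁻¹ - 2) * (v ⬝ᵥ x) ^ 2)
      ≤ 543 / 1000 * (v ⬝ᵥ v) * Mp p V

/-! ## F. The function `gz` -/

/-- The second moment of `gz`. -/
def ST_GB1 : Prop :=
  ∀ (n m : ℕ) (p : ℝ) (V Z : Matrix (Fin n) (Fin m) ℝ) (c : Fin n → ℝ), 2 < p → p ≤ 11 / 5 →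
    Function.Injective V.mulVec → RW p V c → TT V V c = 1 → TT V Z c = 0 →
    (∀ i, V i = 0 → Z i = 0) → ∀ v : Fin m → ℝ,
    IE p V (fun x => (v ⬝ᵥ gz p V Z x) ^ 2) ≤ 2 / 25 * (∑ i, c i * (Z i ⬝ᵥ v) ^ 2) * Mp p V

/-- The weighted second moment of `gz`. -/
def ST_GB2 : Prop :=
  ∀ (n m : ℕ) (p : ℝ) (V Z : Matrix (Fin n) (Fin m) ℝ) (c : Fin n → ℝ), 2 < p → p ≤ 11 / 5 →
    Function.Injective V.mulVec → RW p V c → TT V V c = 1 → TT V Z c = 0 →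
    (∀ i, V i = 0 → Z i = 0) → ∀ j, V j ≠ 0 → ∀ v : Fin m → ℝ,
    IE p V (fun x => (Yj p V c j x)⁻¹ * (v ⬝ᵥ gz p V Z x) ^ 2)
      ≤ 161 / 1000 * (∑ i, c i * (Z i ⬝ᵥ v) ^ 2) * Mp p V

/-- The linear part of `gz`. -/
def ST_GB3 : Prop :=
  ∀ (n m : ℕ) (p : ℝ) (V Z : Matrix (Fin n) (Fin m) ℝ) (c : Fin n → ℝ), 2 < p → p ≤ 11 / 5 →
    Function.Injective V.mulVec → RW p V c → TT V V c = 1 → TT V Z c = 0 →
    (∀ i, V i = 0 → Z i = 0) →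
    ∑ a, ∑ b, IE p V (fun x => x a * gz p V Z x b) ^ 2
      ≤ 832 / 10000 * (∑ i, c i * (Z i ⬝ᵥ Z i)) * Mp p V ^ 2

/-- The variance of `hz`. -/
def ST_HVR : Prop :=
  ∀ (n m : ℕ) (p : ℝ) (V Z : Matrix (Fin n) (Fin m) ℝ) (c : Fin n → ℝ), 2 < p → p ≤ 11 / 5 →
    Function.Injective V.mulVec → RW p V c → TT V V c = 1 → TT V Z c = 0 →
    (∀ i, V i = 0 → Z i = 0) →
    Mp p V * IE p V (fun x => hz p V Z x ^ 2) - IE p V (hz p V Z) ^ 2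
      - Mp p V * IE p V (fun x => ∑ i, g2 p (V.mulVec x i) * (Z.mulVec x i) ^ 2)
    ≤ -(2 / 10) * (∑ i, c i * (Z i ⬝ᵥ Z i)) * Mp p V ^ 2

/-- The second derivative in a critical direction. -/
def ST_DFM : Prop :=
  ∀ (n m : ℕ) (p : ℝ) (V Z : Matrix (Fin n) (Fin m) ℝ) (N : Matrix (Fin m) (Fin m) ℝ),
    2 < p → p ≤ 3 → Function.Injective V.mulVec →
    (∀ a b, IE p V (fun x => x a * gz p V (Z + V * N) x b) = 0) →
    (∀ a b, IE p V (fun x => x a * gz p V Z x b) = -(Mp p V * N a b)) ∧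
    Mp p V * M2 p V (Z + V * N)
      = Mp p V * IE p V (fun x => hz p V Z x ^ 2) - IE p V (hz p V Z) ^ 2
        - Mp p V * IE p V (fun x => ∑ i, g2 p (V.mulVec x i) * (Z.mulVec x i) ^ 2)
        - Mp p V ^ 2 * Matrix.trace (N * N)

/-- The local inequality, normalised. -/
def ST_LI0 : Prop :=
  ∀ (n m : ℕ) (p : ℝ) (V Z : Matrix (Fin n) (Fin m) ℝ) (c : Fin n → ℝ), 2 < p → p ≤ 11 / 5 →
    Function.Injective V.mulVec → RW p V c → TT V V c = 1 → (∀ i, V i = 0 → Z i = 0) →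
    (∀ a b, IE p V (fun x => x a * gz p V Z x b) = 0) → Z ≠ 0 → M2 p V Z < 0

/-- Change of variables. -/
def ST_NRM : Prop :=
  ∀ (n m : ℕ) (p : ℝ) (V : Matrix (Fin n) (Fin m) ℝ) (C : Matrix (Fin m) (Fin m) ℝ),
    2 < p → p ≤ 3 → Function.Injective V.mulVec → C.det ≠ 0 →
    (∀ F : (Fin m → ℝ) → ℝ, IE p (V * C) (fun x => F (C.mulVec x)) * |C.det| = IE p V F) ∧
    Mp p (V * C) * |C.det| = Mp p V ∧ (∀ c, RW p V c → RW p (V * C) c) ∧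
    ∀ Z : Matrix (Fin n) (Fin m) ℝ, M2 p (V * C) (Z * C) * |C.det| = M2 p V Z ∧
      ((∀ a b, IE p V (fun x => x a * gz p V Z x b) = 0) →
        ∀ a b, IE p (V * C) (fun x => x a * gz p (V * C) (Z * C) x b) = 0)

/-- The local inequality. -/
def ST_LI : Prop :=
  ∀ (n m : ℕ) (p : ℝ) (V Z : Matrix (Fin n) (Fin m) ℝ), 2 < p → p ≤ 11 / 5 →
    Function.Injective V.mulVec → (∀ i, V i = 0 → Z i = 0) →
    (∀ a b, IE p V (fun x => x a * gz p V Z x b) = 0) → Z ≠ 0 → M2 p V Z < 0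

/-! ## G. Calculus -/

/-- Derivatives of `Mp`. -/
def ST_DER : Prop :=
  ∀ (n m : ℕ) (p : ℝ) (V Z : Matrix (Fin n) (Fin m) ℝ), 2 < p → p ≤ 3 →
    Function.Injective V.mulVec →
    HasDerivAt (fun t : ℝ => Mp p (V + t • Z)) (M1 p V Z) 0 ∧
    HasDerivAt (fun t : ℝ => M1 p (V + t • Z) Z) (M2 p V Z) 0

/-- Continuity in the matrices. -/
def ST_CTN : Prop :=
  ∀ (n m : ℕ) (p : ℝ), 2 < p → p ≤ 3 →
    IsOpen {V : Matrix (Fin n) (Fin m) ℝ | Function.Injective V.mulVec} ∧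
    ContinuousOn (fun V : Matrix (Fin n) (Fin m) ℝ => Mp p V) {V | Function.Injective V.mulVec} ∧
    ContinuousOn (fun P : Matrix (Fin n) (Fin m) ℝ × Matrix (Fin n) (Fin m) ℝ =>
      M1 p P.1 P.2) {P | Function.Injective P.1.mulVec} ∧
    ContinuousOn (fun P : Matrix (Fin n) (Fin m) ℝ × Matrix (Fin n) (Fin m) ℝ =>
      M2 p P.1 P.2) {P | Function.Injective P.1.mulVec}

/-- The projection. -/
def ST_BPP : Prop :=
  ∀ (n m : ℕ) (p : ℝ) (V : Matrix (Fin n) (Fin m) ℝ), 2 < p → p ≤ 3 →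
    Function.Injective V.mulVec →
    Bp p V * V = 1 ∧ (∀ i, V i = 0 → ∀ a, Bp p V a i = 0) ∧ ∀ Z : Matrix (Fin n) (Fin m) ℝ,
    (∀ a b, IE p V (fun x => x a * gz p V Z x b) = (Bp p V * Z) a b * Mp p V) ∧
    M1 p V Z = -(Mp p V * Matrix.trace (Bp p V * Z))

/-- The critical points on the affine space. -/
def ST_CR : Prop :=
  ∀ (n m : ℕ) (p : ℝ) (W : Matrix (Fin n) (Fin m) ℝ) (B : Matrix (Fin m) (Fin n) ℝ),
    2 < p → p ≤ 3 → B * W = 1 →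
    (∀ Z : Matrix (Fin n) (Fin m) ℝ, B * Z = 0 → M1 p W Z = 0) → Bp p W = B

/-- Noncritical points. -/
def ST_GP : Prop :=
  ∀ (n m : ℕ) (p : ℝ) (V : Matrix (Fin n) (Fin m) ℝ) (B : Matrix (Fin m) (Fin n) ℝ),
    2 < p → p ≤ 3 → B * V = 1 → ∀ w : KB B,
    (∃ e : KB B, M1 p (V + Matrix.of (w : Fin n → Fin m → ℝ))
      (Matrix.of (e : Fin n → Fin m → ℝ)) ≠ 0) → SLP (GB B V p) w

/-- Critical points with negative second derivative. -/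
def ST_GM : Prop :=
  ∀ (n m : ℕ) (p : ℝ) (V : Matrix (Fin n) (Fin m) ℝ) (B : Matrix (Fin m) (Fin n) ℝ),
    2 < p → p ≤ 3 → B * V = 1 → ∀ w : KB B,
    (∀ e : KB B, M1 p (V + Matrix.of (w : Fin n → Fin m → ℝ))
      (Matrix.of (e : Fin n → Fin m → ℝ)) = 0) →
    (∀ e : KB B, e ≠ 0 →
      (∀ i, (V + Matrix.of (w : Fin n → Fin m → ℝ)) i = 0 → (e : Fin n → Fin m → ℝ) i = 0) →
      M2 p (V + Matrix.of (w : Fin n → Fin m → ℝ)) (Matrix.of (e : Fin n → Fin m → ℝ)) < 0) →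
    SLM (GB B V p) w

/-- Compactness of the superlevel sets. -/
def ST_CO : Prop :=
  ∀ (n m : ℕ) (p : ℝ) (V : Matrix (Fin n) (Fin m) ℝ) (B : Matrix (Fin m) (Fin n) ℝ),
    2 < p → p ≤ 3 → B * V = 1 → Continuous (GB B V p) ∧ (∀ w, 0 < GB B V p w) ∧
    ∀ c : ℝ, 0 < c → IsCompact {w | c ≤ GB B V p w}

/-- The volume decreasing projection. -/
def ST_KE : Prop :=
  ∀ (n m : ℕ) (p : ℝ) (V : Matrix (Fin n) (Fin m) ℝ), 2 < p → p ≤ 11 / 5 →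
    Function.Injective V.mulVec →
    ∃ B : Matrix (Fin m) (Fin n) ℝ, B * V = 1 ∧ ∀ W : Matrix (Fin n) (Fin m) ℝ,
      |(B * W).det| * Mp p W ≤ Mp p V

/-! ## H. The main theorem -/

/-- The face inequality in terms of `MM`. -/
def ST_FP : Prop :=
  ∀ (m n : ℕ) (p : ℝ), 2 < p → p ≤ 11 / 5 → FI m n (fun u => u ^ (p / 2))

/-- The main theorem. -/
def ST_MN : Prop :=
  ∀ (m n K : ℕ) (p : ℝ), 2 < p → p ≤ 11 / 5 →
    ∀ [Fact (1 ≤ ENNReal.ofReal p)] (F : Fin K → Face (m + 1) n) (θ : Fin K → ℤ),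
    (∀ j, θ j ≠ 0) → IsCycle F θ → ∀ i,
      μH[(m : ℝ) + 1] ((F i).carrier (ENNReal.ofReal p))
        ≤ ∑ j ∈ univ.erase i, μH[(m : ℝ) + 1] ((F j).carrier (ENNReal.ofReal p))

end Pool.Agent.Helper44.GJ
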